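import Pool.Agent.U372.HP.Circ

/-!
# Lines and circles which have the walk on one side
-/

set_option autoImplicit false

namespace Pool.Agent.U372.HP

open scoped Classical
open Pool.Agent.W840.CT Pool.Agent.U126.NC

/-- the family of approximating sets -/
noncomputable def FF (n r : ℕ) : Finset (Set (ℤ × ℤ)) :=
  ((Finset.Icc (-((n : ℤ) + 1)) (n + 1) ×ˢ Finset.Icc (-((n : ℤ) + 1)) (n + 1)) ×ˢ
    Finset.Icc (-(((n : ℤ) + 1) * (n + 2 * ((r + 1 : ℕ) : ℤ) + 2))) 0).image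
      (fun q => HP q.1.1 q.1.2 q.2) ∪
  (((Finset.Icc (-(((n ^ 2 : ℕ) : ℤ) + 1)) ((n ^ 2 : ℕ) + 1) ×ˢ
      Finset.Icc (-(((n ^ 2 : ℕ) : ℤ) + 1)) ((n ^ 2 : ℕ) + 1)) ×ˢ
    Finset.Icc 1 ((n ^ 2 : ℕ) : ℤ)).image (fun q => DO q.1 q.2) ∪
  ((Finset.Icc (-(((n ^ 2 : ℕ) : ℤ) + 1)) ((n ^ 2 : ℕ) + 1) ×ˢ
      Finset.Icc (-(((n ^ 2 : ℕ) : ℤ) + 1)) ((n ^ 2 : ℕ) + 1)) ×ˢ
    Finset.Icc 0 (((n ^ 2 : ℕ) : ℤ) + n + r + 3)).image (fun q => DI q.1 q.2))

theorem nb_FF (n r : ℕ) : ∀ A ∈ FF n r, ∀ u ∈ A, ∃ u' ∈ A, adj u u' := by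
  intro A hA
  unfold FF at hA
  rw [Finset.mem_union, Finset.mem_union, Finset.mem_image, Finset.mem_image,
    Finset.mem_image] at hA
  rcases hA with ⟨q, -, rfl⟩ | ⟨q, hq, rfl⟩ | ⟨q, -, rfl⟩
  · exact nb_HP _ _ _
  · rw [Finset.mem_product, Finset.mem_Icc] at hq
    exact nb_DO _ hq.2.1
  · exact nb_DI _ _

theorem card_FF_nat {n : ℕ} (hn : 2 ≤ n) (r : ℕ) : (FF n r).card ≤ n ^ 14 * (r + 1) := by
  have h1 : (FF n r).card ≤ (2 * n + 3) ^ 2 * ((n + 1) * (n + 2 * r + 4) + 1) +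
      ((2 * n ^ 2 + 3) ^ 2 * n ^ 2 + (2 * n ^ 2 + 3) ^ 2 * (n ^ 2 + n + r + 4)) := by
    unfold FF
    refine (Finset.card_union_le _ _).trans ?_
    refine Nat.add_le_add ?_ ((Finset.card_union_le _ _).trans (Nat.add_le_add ?_ ?_))
    · refine Finset.card_image_le.trans (le_of_eq ?_)
      rw [Finset.card_product, Finset.card_product, Int.card_Icc, Int.card_Icc]
      have e1 : ((n : ℤ) + 1 + 1 - -((n : ℤ) + 1)).toNat = 2 * n + 3 := by omega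
      have e2 : (0 + 1 - -(((n : ℤ) + 1) * (n + 2 * ((r + 1 : ℕ) : ℤ) + 2))).toNat =
          (n + 1) * (n + 2 * r + 4) + 1 := by
        have e3 : (0 + 1 - -(((n : ℤ) + 1) * (n + 2 * ((r + 1 : ℕ) : ℤ) + 2))) =
            (((n + 1) * (n + 2 * r + 4) + 1 : ℕ) : ℤ) := by
          push_cast; ring
        rw [e3, Int.toNat_natCast]
      rw [e1, e2, sq]
    · refine Finset.card_image_le.trans (le_of_eq ?_)
      rw [Finset.card_product, Finset.card_product, Int.card_Icc, Int.card_Icc]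
      have e1 : (((n ^ 2 : ℕ) : ℤ) + 1 + 1 - -(((n ^ 2 : ℕ) : ℤ) + 1)).toNat = 2 * n ^ 2 + 3 := by
        omega
      have e2 : (((n ^ 2 : ℕ) : ℤ) + 1 - 1).toNat = n ^ 2 := by omega
      rw [e1, e2, sq (2 * n ^ 2 + 3)]
    · refine Finset.card_image_le.trans (le_of_eq ?_)
      rw [Finset.card_product, Finset.card_product, Int.card_Icc, Int.card_Icc]
      have e1 : (((n ^ 2 : ℕ) : ℤ) + 1 + 1 - -(((n ^ 2 : ℕ) : ℤ) + 1)).toNat = 2 * n ^ 2 + 3 := by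
        omega
      have e2 : (((n ^ 2 : ℕ) : ℤ) + n + r + 3 + 1 - 0).toNat = n ^ 2 + n + r + 4 := by omega
      rw [e1, e2, sq (2 * n ^ 2 + 3)]
  refine h1.trans ?_
  have p1 : 1 ≤ n := by omega
  have p2 : 4 ≤ n ^ 2 := by nlinarith
  have p3 : 2 * n ^ 2 ≤ n ^ 3 := by
    have e : n ^ 3 = n * n ^ 2 := by ring
    rw [e]; exact Nat.mul_le_mul_right _ hn
  have a1 : 2 * n + 3 ≤ n ^ 3 := by nlinarith
  have a2 : (2 * n + 3) ^ 2 ≤ n ^ 6 := by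
    calc (2 * n + 3) ^ 2 ≤ (n ^ 3) ^ 2 := Nat.pow_le_pow_left a1 2
      _ = n ^ 6 := by ring
  have p4 : 4 * n ^ 2 ≤ n ^ 4 := by
    have e : n ^ 4 = n ^ 2 * n ^ 2 := by ring
    rw [e]; exact Nat.mul_le_mul_right _ p2
  have c1 : 2 * n ^ 2 + 3 ≤ n ^ 4 := by omega
  have c2 : (2 * n ^ 2 + 3) ^ 2 ≤ n ^ 8 := by
    calc (2 * n ^ 2 + 3) ^ 2 ≤ (n ^ 4) ^ 2 := Nat.pow_le_pow_left c1 2
      _ = n ^ 8 := by ring
  have hnn : n ≤ n ^ 2 := by nlinarith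
  have d0 : n ^ 2 + n + r + 4 ≤ n ^ 4 * (r + 1) := by
    have : n ^ 2 + n + 4 ≤ n ^ 4 := by nlinarith
    nlinarith [Nat.zero_le (r * n ^ 4), Nat.mul_le_mul_right r (show 1 ≤ n ^ 4 by omega)]
  have e0 : n ^ 2 ≤ n ^ 4 * (r + 1) := by nlinarith
  have p5 : 2 * n ^ 4 ≤ n ^ 5 := by
    have e : n ^ 5 = n * n ^ 4 := by ring
    rw [e]; exact Nat.mul_le_mul_right _ hn
  have b0 : (n + 1) * (n + 2 * r + 4) + 1 ≤ n ^ 5 * (r + 1) := by
    have b1 : (n + 1) * (n + 4) + 1 ≤ n ^ 5 := by nlinarith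
    have b2 : (n + 1) * (2 * r) ≤ n ^ 5 * r := by
      have : (n + 1) * 2 ≤ n ^ 5 := by nlinarith
      calc (n + 1) * (2 * r) = (n + 1) * 2 * r := by ring
        _ ≤ _ := Nat.mul_le_mul_right _ this
    nlinarith
  calc _ ≤ n ^ 6 * (n ^ 5 * (r + 1)) + (n ^ 8 * (n ^ 4 * (r + 1)) + n ^ 8 * (n ^ 4 * (r + 1))) :=
        Nat.add_le_add (Nat.mul_le_mul a2 b0)
          (Nat.add_le_add (Nat.mul_le_mul c2 e0) (Nat.mul_le_mul c2 d0))
    _ = (n ^ 11 + 2 * n ^ 12) * (r + 1) := by ring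
    _ ≤ n ^ 14 * (r + 1) := by
        refine Nat.mul_le_mul_right _ ?_
        have q1 : n ^ 11 ≤ n ^ 12 := Nat.pow_le_pow_right p1 (by norm_num)
        have q2 : 4 * n ^ 12 ≤ n ^ 14 := by
          have e : n ^ 14 = n ^ 2 * n ^ 12 := by ring
          rw [e]; exact Nat.mul_le_mul_right _ p2
        omega

theorem card_FF {n : ℕ} (hn : 2 ≤ n) (r : ℕ) :
    ((FF n r).card : ℝ) ≤ Real.exp (14 * Real.log n + r) := by
  have hn0 : (0 : ℝ) < n := by exact_mod_cast (by omega : 0 < n)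
  have h1 : ((FF n r).card : ℝ) ≤ (n : ℝ) ^ 14 * (r + 1) := by exact_mod_cast card_FF_nat hn r
  refine h1.trans ?_
  rw [Real.exp_add]
  have h2 : Real.exp (14 * Real.log n) = (n : ℝ) ^ 14 := by
    rw [show (14 : ℝ) * Real.log n = ((14 : ℕ) : ℝ) * Real.log n by norm_num, Real.exp_nat_mul,
      Real.exp_log hn0]
  rw [h2]
  exact mul_le_mul_of_nonneg_left (Real.add_one_le_exp _) (by positivity)

/-! ### the numbers of vertices close to a line or a circle -/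

/-- number of vertices at distance at most `s` from the line, for a walk on one side -/
noncomputable def nL {n : ℕ} (a b c : ℝ) (s : ℕ) (ω : Fin (n + 1) → ℤ × ℤ) : ℕ :=
  (Finset.univ.filter (fun i : Fin (n + 1) =>
    a * (ω i).1 + b * (ω i).2 ≤ c + s * Real.sqrt (a ^ 2 + b ^ 2))).card

/-- number of vertices in the disc of radius `ρ + r` -/
noncomputable def nO {n : ℕ} (z : ℝ × ℝ) (ρ : ℝ) (r : ℕ) (ω : Fin (n + 1) → ℤ × ℤ) : ℕ :=
  (Finset.univ.filter (fun i : Fin (n + 1) => EE z (ω i) ≤ ρ + r)).card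

/-- number of vertices outside of the disc of radius `ρ - r` -/
noncomputable def nI {n : ℕ} (z : ℝ × ℝ) (ρ : ℝ) (r : ℕ) (ω : Fin (n + 1) → ℤ × ℤ) : ℕ :=
  (Finset.univ.filter (fun i : Fin (n + 1) => ρ - r ≤ EE z (ω i))).card

theorem nt_mono {n : ℕ} {ω : Fin (n + 1) → ℤ × ℤ} {A : Set (ℤ × ℤ)} {k l : ℕ} (h : k ≤ l) :
    nt A k ω ≤ nt A l ω := by
  unfold nt
  refine Finset.card_le_card (fun i hi => ?_)
  rw [Finset.mem_filter] at hi ⊢
  obtain ⟨h1, u, hu, h2⟩ := hi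
  exact ⟨h1, u, hu, h2.trans (by exact_mod_cast h)⟩

theorem line_set {n : ℕ} {ω : Fin (n + 1) → ℤ × ℤ} (h : SW n ω) {a b c : ℝ}
    (hab : a ≠ 0 ∨ b ≠ 0) (hw : ∀ i, c ≤ a * (ω i).1 + b * (ω i).2) (r : ℕ)
    (hpos : 0 < nL a b c (r + 1) ω) :
    ∃ A ∈ FF n r, (∀ i, ω i ∉ A) ∧ nL a b c (r + 1) ω ≤ nt A (5 * r + 25) ω := by
  have hmem : ∀ i, ω i ∈ Set.range ω := fun i => ⟨i, rfl⟩
  obtain ⟨i0, hi0⟩ := Finset.card_pos.1 hpos
  rw [Finset.mem_filter] at hi0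
  obtain ⟨a', b', k, h1, h2, h3, h4, h5, h6⟩ := hp_gen (n := n) (Set.range ω)
    (by rintro _ ⟨i, rfl⟩; exact norm_le' h i) ⟨0, h.1⟩ a b c hab (r + 1)
    (by rintro _ ⟨i, rfl⟩; exact hw i) ⟨ω i0, hmem i0, hi0.2⟩
  refine ⟨HP a' b' k, ?_, fun i => h5 _ (hmem i), ?_⟩
  · unfold FF
    rw [Finset.mem_union, Finset.mem_image]
    left
    refine ⟨((a', b'), k), ?_, rfl⟩
    rw [Finset.mem_product, Finset.mem_product, Finset.mem_Icc, Finset.mem_Icc, Finset.mem_Icc]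
    exact ⟨⟨abs_le.1 h1, abs_le.1 h2⟩, h3, h4⟩
  · refine le_trans ?_ (nt_mono (show 2 * (r + 1) + 3 ≤ 5 * r + 25 by omega))
    unfold nL nt
    refine Finset.card_le_card (fun i hi => ?_)
    rw [Finset.mem_filter] at hi ⊢
    exact ⟨Finset.mem_univ _, h6 _ (hmem i) hi.2⟩

theorem box_count {n : ℕ} {ω : Fin (n + 1) → ℤ × ℤ} (h : SW n ω) (z : ℝ × ℝ) {ρ : ℝ}
    (hρ : ρ < 4) (r : ℕ) : nO z ρ r ω ≤ (2 * r + 13) ^ 2 := by
  unfold nO
  set B : Finset (ℤ × ℤ) := Finset.Icc ((fl z).1 - (r + 6)) ((fl z).1 + (r + 6)) ×ˢ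
    Finset.Icc ((fl z).2 - (r + 6)) ((fl z).2 + (r + 6)) with hB
  have hc : B.card = (2 * r + 13) ^ 2 := by
    rw [hB, Finset.card_product, Int.card_Icc, Int.card_Icc, sq]
    congr 1 <;> omega
  rw [← hc]
  refine Finset.card_le_card_of_injOn ω ?_ (fun i _ j _ hij => h.2.2 hij)
  intro i hi
  simp only [Finset.coe_filter, Finset.mem_univ, true_and, Set.mem_ofPred_eq] at hi
  have h2 := (abs_le.1 (fl_dist z (ω i))).1
  rw [EE_int] at h2
  set X : ℤ := (ω i).1 - (fl z).1 with hX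
  set Y : ℤ := (ω i).2 - (fl z).2 with hY
  have h3 : Real.sqrt ((X : ℝ) ^ 2 + (Y : ℝ) ^ 2) ≤ r + 6 := by linarith
  rw [Real.sqrt_le_left (by positivity)] at h3
  have h4 : |(X : ℝ)| ≤ r + 6 := by
    apply abs_le_of_sq_le_sq _ (by positivity)
    nlinarith [sq_nonneg (Y : ℝ)]
  have h5 : |(Y : ℝ)| ≤ r + 6 := by
    apply abs_le_of_sq_le_sq _ (by positivity)
    nlinarith [sq_nonneg (X : ℝ)]
  have h6 : |X| ≤ (r : ℤ) + 6 := by exact_mod_cast h4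
  have h7 : |Y| ≤ (r : ℤ) + 6 := by exact_mod_cast h5
  rw [abs_le] at h6 h7
  rw [Finset.mem_coe, hB, Finset.mem_product, Finset.mem_Icc, Finset.mem_Icc]
  refine ⟨⟨?_, ?_⟩, ?_, ?_⟩ <;> omega

/-- the walk is outside of a circle -/
theorem out_set {n : ℕ} (hn : 2 ≤ n) {ω : Fin (n + 1) → ℤ × ℤ} (h : SW n ω) {z : ℝ × ℝ} {ρ : ℝ}
    (hw : ∀ i, ρ ≤ EE z (ω i)) (r : ℕ) (hpos : 0 < nO z ρ r ω) :
    nO z ρ r ω ≤ (2 * r + 13) ^ 2 ∨
      ∃ A ∈ FF n r, (∀ i, ω i ∉ A) ∧ nO z ρ r ω ≤ nt A (5 * r + 25) ω := by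
  have hmem : ∀ i, ω i ∈ Set.range ω := fun i => ⟨i, rfl⟩
  rcases lt_or_ge ρ 4 with hρ | hρ
  · exact Or.inl (box_count h z hρ r)
  right
  rcases le_or_gt (EE z (0, 0)) ((n : ℝ) ^ 2) with hz | hz
  · obtain ⟨z', R, g1, g2, g3, g4, g5, g6, g7, g8⟩ := out_core (M := n ^ 2) (Set.range ω)
      ⟨0, h.1⟩ z (by push_cast; exact hz) hρ (by rintro _ ⟨i, rfl⟩; exact hw i) r
    refine ⟨DO z' R, ?_, fun i => g7 _ (hmem i), ?_⟩
    · unfold FF
      rw [Finset.mem_union, Finset.mem_union, Finset.mem_image, Finset.mem_image,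
        Finset.mem_image]
      right; left
      refine ⟨(z', R), ?_, rfl⟩
      rw [Finset.mem_product, Finset.mem_product, Finset.mem_Icc, Finset.mem_Icc, Finset.mem_Icc]
      exact ⟨⟨⟨g1, g2⟩, g3, g4⟩, g5, g6⟩
    · unfold nO nt
      refine Finset.card_le_card (fun i hi => ?_)
      rw [Finset.mem_filter] at hi ⊢
      exact ⟨Finset.mem_univ _, g8 _ (hmem i) hi.2⟩
  · set Z := EE z (0, 0) with hZ
    have hn' : (2 : ℝ) ≤ n := by exact_mod_cast hn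
    have hZ0 : 0 < Z := lt_of_le_of_lt (by positivity) hz
    have hZe : Real.sqrt ((-z.1) ^ 2 + (-z.2) ^ 2) = Z := by
      rw [hZ]; unfold EE; simp
    have hab : -z.1 ≠ 0 ∨ -z.2 ≠ 0 := by
      by_contra hcon
      push Not at hcon
      rw [hcon.1, hcon.2] at hZe
      simp at hZe
      linarith
    have hle : nO z ρ r ω ≤ nL (-z.1) (-z.2) ((ρ - 1 - Z) * Z) (r + 1) ω := by
      unfold nO nL
      refine Finset.card_le_card (fun i hi => ?_)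
      rw [Finset.mem_filter] at hi ⊢
      refine ⟨Finset.mem_univ _, ?_⟩
      have h1 := (far_circle hn (norm_le' h i) hz).1
      rw [hZe]
      have h2 : Z * EE z (ω i) ≤ Z * (ρ + r) := mul_le_mul_of_nonneg_left hi.2 hZ0.le
      push_cast
      nlinarith
    obtain ⟨A, hA, h3, h4⟩ := line_set h hab (c := (ρ - 1 - Z) * Z) (by
      intro i
      have h1 := (far_circle hn (norm_le' h i) hz).2
      have h2 : Z * ρ ≤ Z * EE z (ω i) := mul_le_mul_of_nonneg_left (hw i) hZ0.le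
      nlinarith) r (lt_of_lt_of_le hpos hle)
    exact ⟨A, hA, h3, hle.trans h4⟩

/-- the walk is inside of a circle -/
theorem in_set {n : ℕ} (hn : 2 ≤ n) {ω : Fin (n + 1) → ℤ × ℤ} (h : SW n ω) {z : ℝ × ℝ} {ρ : ℝ}
    (hw : ∀ i, EE z (ω i) ≤ ρ) (r : ℕ) (hpos : 0 < nI z ρ r ω) :
      ∃ A ∈ FF n r, (∀ i, ω i ∉ A) ∧ nI z ρ r ω ≤ nt A (5 * r + 25) ω := by
  have hmem : ∀ i, ω i ∈ Set.range ω := fun i => ⟨i, rfl⟩
  obtain ⟨i0, hi0⟩ := Finset.card_pos.1 hpos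
  rw [Finset.mem_filter] at hi0
  rcases le_or_gt (EE z (0, 0)) ((n : ℝ) ^ 2) with hz | hz
  · obtain ⟨z', R, g1, g2, g3, g4, g5, g6, g7, g8⟩ := in_core (n := n) (M := n ^ 2) (Set.range ω)
      (by rintro _ ⟨i, rfl⟩; exact norm_le' h i)
      ⟨0, h.1⟩ z (by push_cast; exact hz) (by rintro _ ⟨i, rfl⟩; exact hw i) r
      ⟨ω i0, hmem i0, hi0.2⟩
    refine ⟨DI z' R, ?_, fun i => g7 _ (hmem i), ?_⟩
    · unfold FF
      rw [Finset.mem_union, Finset.mem_union, Finset.mem_image, Finset.mem_image,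
        Finset.mem_image]
      right; right
      refine ⟨(z', R), ?_, rfl⟩
      rw [Finset.mem_product, Finset.mem_product, Finset.mem_Icc, Finset.mem_Icc, Finset.mem_Icc]
      exact ⟨⟨⟨g1, g2⟩, g3, g4⟩, g5, g6⟩
    · unfold nI nt
      refine Finset.card_le_card (fun i hi => ?_)
      rw [Finset.mem_filter] at hi ⊢
      exact ⟨Finset.mem_univ _, g8 _ (hmem i) hi.2⟩
  · set Z := EE z (0, 0) with hZ
    have hn' : (2 : ℝ) ≤ n := by exact_mod_cast hn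
    have hZ0 : 0 < Z := lt_of_le_of_lt (by positivity) hz
    have hZe : Real.sqrt (z.1 ^ 2 + z.2 ^ 2) = Z := by
      rw [hZ]; unfold EE; simp
    have hab : z.1 ≠ 0 ∨ z.2 ≠ 0 := by
      by_contra hcon
      push Not at hcon
      rw [hcon.1, hcon.2] at hZe
      simp at hZe
      linarith
    have hle : nI z ρ r ω ≤ nL z.1 z.2 ((Z - ρ) * Z) (r + 1) ω := by
      unfold nI nL
      refine Finset.card_le_card (fun i hi => ?_)
      rw [Finset.mem_filter] at hi ⊢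
      refine ⟨Finset.mem_univ _, ?_⟩
      have h1 := (far_circle hn (norm_le' h i) hz).2
      rw [hZe]
      have h2 : Z * (ρ - r) ≤ Z * EE z (ω i) := mul_le_mul_of_nonneg_left hi.2 hZ0.le
      push_cast
      nlinarith
    obtain ⟨A, hA, h3, h4⟩ := line_set h hab (c := (Z - ρ) * Z) (by
      intro i
      have h1 := (far_circle hn (norm_le' h i) hz).1
      have h2 : Z * EE z (ω i) ≤ Z * ρ := mul_le_mul_of_nonneg_left (hw i) hZ0.le
      nlinarith) r (lt_of_lt_of_le hpos hle)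
    exact ⟨A, hA, h3, hle.trans h4⟩

/-! ### the thresholds -/

/-- the constant of the main theorem -/
noncomputable def KR : ℝ := 2000000 ^ 26

theorem log_ge {n : ℕ} (hn : 2 ≤ n) : (69 / 100 : ℝ) ≤ Real.log n := by
  have h1 : Real.log 2 ≤ Real.log n := Real.log_le_log (by norm_num) (by exact_mod_cast hn)
  have := Real.log_two_gt_d9
  linarith

theorem sq_le_four (r : ℕ) : ((r : ℝ) + 1) ^ 2 ≤ 4 ^ r := by
  have h : (r : ℝ) + 1 ≤ 2 ^ r := by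
    have : r + 1 ≤ 2 ^ r := Nat.lt_two_pow_self
    exact_mod_cast this
  calc ((r : ℝ) + 1) ^ 2 ≤ (2 ^ r) ^ 2 := pow_le_pow_left₀ (by positivity) h 2
    _ = 4 ^ r := by rw [← pow_mul, mul_comm, pow_mul]; norm_num

theorem thr_main {n : ℕ} (hn : 2 ≤ n) (r : ℕ) {x : ℝ} (hx : 0 ≤ x) :
    (CK (5 * r + 25) : ℝ) * ((14 * Real.log n + r) + r + x + 3) ≤
      KR ^ (r + 1) * (Real.log n + x) := by
  have hl := log_ge hn
  set l := Real.log n with hlog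
  have h1 : (14 * l + r) + r + x + 3 ≤ (3 * r + 19) * (l + x) := by
    have hr : (0 : ℝ) ≤ r := Nat.cast_nonneg _
    nlinarith [mul_nonneg hr hx, mul_nonneg hr (by linarith : (0 : ℝ) ≤ l - 69 / 100)]
  have h2 : (CK (5 * r + 25) : ℝ) * (3 * r + 19) ≤ KR ^ (r + 1) := by
    unfold CK DD KR
    push_cast
    have e : ((2000000 : ℝ) ^ 26) ^ (r + 1) = 2000000 ^ (5 * r + 25) * 2000000 ^ (21 * r + 1) := by
      rw [← pow_mul, ← pow_add]
      congr 1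
      ring
    rw [e]
    have h3 : 2 * ((5 * (r : ℝ) + 25 + 7) * (3 * r + 19)) ≤ 2000000 ^ (21 * r + 1) := by
      have h4 := sq_le_four r
      have hr : (0 : ℝ) ≤ r := Nat.cast_nonneg _
      have h5 : (4 : ℝ) ^ r ≤ 2000000 ^ (21 * r) := by
        rw [pow_mul]
        exact pow_le_pow_left₀ (by norm_num) (by norm_num) r
      rw [pow_succ]
      nlinarith
    calc 2 * (2000000 : ℝ) ^ (5 * r + 25) * (5 * (r : ℝ) + 25 + 7) * (3 * r + 19)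
        = 2000000 ^ (5 * r + 25) * (2 * ((5 * (r : ℝ) + 25 + 7) * (3 * r + 19))) := by ring
      _ ≤ _ := mul_le_mul_of_nonneg_left h3 (by positivity)
  calc (CK (5 * r + 25) : ℝ) * ((14 * l + r) + r + x + 3)
      ≤ (CK (5 * r + 25) : ℝ) * ((3 * r + 19) * (l + x)) :=
        mul_le_mul_of_nonneg_left h1 (Nat.cast_nonneg _)
    _ = (CK (5 * r + 25) : ℝ) * (3 * r + 19) * (l + x) := by ring
    _ ≤ _ := mul_le_mul_of_nonneg_right h2 (by linarith)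

theorem four_le_KR (r : ℕ) : 400 * (4 : ℝ) ^ r ≤ KR ^ (r + 1) := by
  unfold KR
  rw [pow_succ]
  have h1 : (4 : ℝ) ^ r ≤ ((2000000 : ℝ) ^ 26) ^ r := pow_le_pow_left₀ (by norm_num) (by norm_num) r
  have h2 : (400 : ℝ) ≤ 2000000 ^ 26 := by norm_num
  have h3 : (0 : ℝ) ≤ 4 ^ r := by positivity
  calc 400 * (4 : ℝ) ^ r = 4 ^ r * 400 := by ring
    _ ≤ _ := mul_le_mul h1 h2 (by norm_num) (by positivity)

theorem thr_small {n : ℕ} (hn : 2 ≤ n) (r : ℕ) {x : ℝ} (hx : 0 ≤ x) :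
    (2 * (r : ℝ) + 13) ^ 2 ≤ KR ^ (r + 1) * (Real.log n + x) := by
  have hl := log_ge hn
  have h1 := four_le_KR r
  have h2 := sq_le_four r
  have hr : (0 : ℝ) ≤ r := Nat.cast_nonneg _
  have h3 : KR ^ (r + 1) * (69 / 100) ≤ KR ^ (r + 1) * (Real.log n + x) :=
    mul_le_mul_of_nonneg_left (by linarith) (by unfold KR; positivity)
  nlinarith

theorem thr_far {n : ℕ} (hn : 2 ≤ n) {r : ℕ} (hr : n ≤ r) {x : ℝ} (hx : 0 ≤ x) :
    ((n + 1 : ℕ) : ℝ) ≤ KR ^ (r + 1) * (Real.log n + x) := by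
  have h1 := thr_small hn r hx
  have h2 : (n : ℝ) ≤ r := by exact_mod_cast hr
  push_cast
  nlinarith

/-- **Lines and circles with the walk on one side.** -/
theorem lines_circles {n : ℕ} (hn : 2 ≤ n) {x : ℝ} (hx : 0 ≤ x) :
    ((({ω | SW n ω ∧ ¬ ∀ r : ℕ,
      (∀ a b c : ℝ, (a ≠ 0 ∨ b ≠ 0) → (∀ i, c ≤ a * (ω i).1 + b * (ω i).2) →
        (nL a b c r ω : ℝ) ≤ KR ^ (r + 1) * (Real.log n + x)) ∧
      (∀ (z : ℝ × ℝ) (ρ : ℝ), (∀ i, ρ ≤ EE z (ω i)) →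
        (nO z ρ r ω : ℝ) ≤ KR ^ (r + 1) * (Real.log n + x)) ∧
      (∀ (z : ℝ × ℝ) (ρ : ℝ), (∀ i, EE z (ω i) ≤ ρ) →
        (nI z ρ r ω : ℝ) ≤ KR ^ (r + 1) * (Real.log n + x))} :
        Set (Fin (n + 1) → ℤ × ℤ)).ncard : ℕ) : ℝ) ≤ Real.exp (-x) * cN n := by
  have hl := log_ge hn
  have h := fam n (FF n) (nb_FF n) (fun r => 5 * r + 25) (fun r => 14 * Real.log n + r)
    (fun r => by positivity) (fun r => card_FF hn r) hx
  refine le_trans ?_ h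
  have hcard : ∀ (p : Fin (n + 1) → Prop), ((Finset.univ.filter p).card : ℝ) ≤ ((n + 1 : ℕ) : ℝ) := by
    intro p
    have := Finset.card_filter_le (Finset.univ : Finset (Fin (n + 1))) p
    rw [Finset.card_univ, Fintype.card_fin] at this
    exact_mod_cast this
  have hK0 : ∀ r : ℕ, 0 ≤ KR ^ (r + 1) * (Real.log n + x) := fun r =>
    mul_nonneg (by unfold KR; positivity) (by linarith)
  have key : ∀ (ω : Fin (n + 1) → ℤ × ℤ) (r : ℕ) (m : ℕ) (hm : (m : ℝ) ≤ ((n + 1 : ℕ) : ℝ)),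
      (m ≤ (2 * r + 13) ^ 2 ∨ ∃ A ∈ FF n r, (∀ i, ω i ∉ A) ∧ m ≤ nt A (5 * r + 25) ω) →
      (¬ ∃ r < n, ∃ A ∈ FF n r, (∀ i, ω i ∉ A) ∧
        (CK (5 * r + 25) : ℝ) * ((14 * Real.log n + r) + r + x + 3) < nt A (5 * r + 25) ω) →
      (m : ℝ) ≤ KR ^ (r + 1) * (Real.log n + x) := by
    intro ω r m hm h1 h2
    rcases le_or_gt n r with hr | hr
    · exact hm.trans (thr_far hn hr hx)
    rcases h1 with h1 | ⟨A, hA, h3, h4⟩
    · have h5 : (m : ℝ) ≤ (2 * (r : ℝ) + 13) ^ 2 := by exact_mod_cast h1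
      exact h5.trans (thr_small hn r hx)
    · push Not at h2
      have h5 := h2 r hr A hA h3
      have h6 : (m : ℝ) ≤ nt A (5 * r + 25) ω := by exact_mod_cast h4
      exact h6.trans (h5.trans (thr_main hn r hx))
  have hsub : ({ω | SW n ω ∧ ¬ ∀ r : ℕ,
      (∀ a b c : ℝ, (a ≠ 0 ∨ b ≠ 0) → (∀ i, c ≤ a * (ω i).1 + b * (ω i).2) →
        (nL a b c r ω : ℝ) ≤ KR ^ (r + 1) * (Real.log n + x)) ∧
      (∀ (z : ℝ × ℝ) (ρ : ℝ), (∀ i, ρ ≤ EE z (ω i)) →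
        (nO z ρ r ω : ℝ) ≤ KR ^ (r + 1) * (Real.log n + x)) ∧
      (∀ (z : ℝ × ℝ) (ρ : ℝ), (∀ i, EE z (ω i) ≤ ρ) →
        (nI z ρ r ω : ℝ) ≤ KR ^ (r + 1) * (Real.log n + x))} :
        Set (Fin (n + 1) → ℤ × ℤ)) ⊆
      {ω | SW n ω ∧ ∃ r < n, ∃ A ∈ FF n r, (∀ i, ω i ∉ A) ∧
        (CK (5 * r + 25) : ℝ) * ((14 * Real.log n + r) + r + x + 3) < nt A (5 * r + 25) ω} := by
    rintro ω ⟨h1, h2⟩
    refine ⟨h1, ?_⟩
    by_contra hcon
    apply h2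
    intro r
    refine ⟨?_, ?_, ?_⟩
    · intro a b c hab hw
      have hle : nL a b c r ω ≤ nL a b c (r + 1) ω := by
        unfold nL
        refine Finset.card_le_card (fun i hi => ?_)
        rw [Finset.mem_filter] at hi ⊢
        refine ⟨hi.1, hi.2.trans ?_⟩
        have := Real.sqrt_nonneg (a ^ 2 + b ^ 2)
        push_cast
        nlinarith
      have hle' : (nL a b c r ω : ℝ) ≤ nL a b c (r + 1) ω := by exact_mod_cast hle
      refine hle'.trans ?_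
      rcases Nat.eq_zero_or_pos (nL a b c (r + 1) ω) with h0 | h0
      · rw [h0]; simpa using hK0 r
      · exact key ω r _ (hcard _) (Or.inr (line_set h1 hab hw r h0)) hcon
    · intro z ρ hw
      rcases Nat.eq_zero_or_pos (nO z ρ r ω) with h0 | h0
      · rw [h0]; simpa using hK0 r
      · exact key ω r _ (hcard _) (out_set hn h1 hw r h0) hcon
    · intro z ρ hw
      rcases Nat.eq_zero_or_pos (nI z ρ r ω) with h0 | h0
      · rw [h0]; simpa using hK0 r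
      · exact key ω r _ (hcard _) (Or.inr (in_set hn h1 hw r h0)) hcon
  exact_mod_cast Set.ncard_le_ncard hsub ((SW_fin n).subset (fun ω hω => hω.1))

end Pool.Agent.U372.HP
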