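import Pool.Agent.U372.HP.Main
import Pool.Agent.TH546.SG.Inst2

/-!
# From self-avoiding walks to self-avoiding polygons
-/

set_option autoImplicit false

namespace Pool.Agent.U372.HP

open scoped Classical
open Pool.Agent.W840.CT Pool.Agent.U126.NC
open Pool.Agent.TH546.SAW (IsL phi phi_mem phi_inj PL mem_PL)

/-- events which are unlikely for the walks are unlikely for the polygons -/
theorem poly_prob : ∃ K : ℝ, 0 ≤ K ∧ ∀ N : ℕ, 2 ≤ N →
    ∀ (E : Set (Fin (2 * N - 1 + 1) → ℤ × ℤ)) (y : ℝ),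
    ((({ω | SW (2 * N - 1) ω ∧ ω ∈ E} : Set (Fin (2 * N - 1 + 1) → ℤ × ℤ)).ncard : ℕ) : ℝ) ≤
      Real.exp (-y) * cN (2 * N - 1) →
    (((PL N).filter (fun f => phi N f ∈ E)).card : ℝ) ≤
      Real.exp (-y + K * Real.log N ^ 2) * (PL N).card := by
  obtain ⟨K1, hK1, h1⟩ := Pool.Agent.TH546.SG.PL_lower Pool.Agent.TH546.SG.PLo2
  obtain ⟨K2, hK2, h2⟩ := Pool.Agent.TH546.SG.CU2
  refine ⟨K1 + 4 * K2, by positivity, fun N hN E y hE => ?_⟩
  have hmu := H981.mu_pos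
  have hc : cN (2 * N - 1) = (cn (2 * N - 1) : ℝ) := by
    unfold cN cn
    exact congrArg Nat.cast (Nat.card_coe_set_eq ({ω | SW (2 * N - 1) ω} :
      Set (Fin (2 * N - 1 + 1) → ℤ × ℤ))).symm
  have h3 := h1 N hN
  have h4 := h2 (2 * N) (by omega) (2 * N - 1) (by omega)
  have hl := log_ge hN
  have h5 : Real.log ((2 * N : ℕ) : ℝ) ^ 2 ≤ 4 * Real.log N ^ 2 := by
    have hN0 : (2 : ℝ) ≤ N := by exact_mod_cast hN
    have e : Real.log ((2 * N : ℕ) : ℝ) ≤ 2 * Real.log N := by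
      push_cast
      rw [Real.log_mul (by norm_num) (by linarith)]
      have := Real.log_le_log (by norm_num) hN0
      linarith
    have e0 : 0 ≤ Real.log ((2 * N : ℕ) : ℝ) := Real.log_nonneg (by push_cast; linarith)
    nlinarith
  have h6 : (((PL N).filter (fun f => phi N f ∈ E)).card : ℝ) ≤
      ((({ω | SW (2 * N - 1) ω ∧ ω ∈ E} : Set (Fin (2 * N - 1 + 1) → ℤ × ℤ)).ncard : ℕ) : ℝ) := by
    rw [← Set.ncard_coe_finset]
    have : (((PL N).filter (fun f => phi N f ∈ E) : Finset (ZMod (2 * N) → ℤ × ℤ)) :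
        Set (ZMod (2 * N) → ℤ × ℤ)).ncard ≤
        ({ω | SW (2 * N - 1) ω ∧ ω ∈ E} : Set (Fin (2 * N - 1 + 1) → ℤ × ℤ)).ncard := by
      refine Set.ncard_le_ncard_of_injOn (phi N) ?_ ?_ ((SW_fin _).subset (fun ω hω => hω.1))
      · intro f hf
        rw [Finset.mem_coe, Finset.mem_filter] at hf
        exact ⟨phi_mem (by omega) ((mem_PL (by omega)).1 hf.1), hf.2⟩
      · intro f _ f' _ h
        exact phi_inj (by omega) h
    exact_mod_cast this
  refine h6.trans (hE.trans ?_)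
  rw [hc]
  calc Real.exp (-y) * (cn (2 * N - 1) : ℝ)
      ≤ Real.exp (-y) * (H981.mu ^ (2 * N - 1) * Real.exp (K2 * (4 * Real.log N ^ 2))) := by
        refine mul_le_mul_of_nonneg_left (h4.trans ?_) (Real.exp_pos _).le
        refine mul_le_mul_of_nonneg_left ?_ (by positivity)
        exact Real.exp_le_exp.2 (mul_le_mul_of_nonneg_left h5 hK2)
    _ = Real.exp (-y + (K1 + 4 * K2) * Real.log N ^ 2) *
        (H981.mu ^ (2 * N - 1) * Real.exp (-(K1 * Real.log N ^ 2))) := by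
        rw [show -y + (K1 + 4 * K2) * Real.log N ^ 2 =
          (-y + K2 * (4 * Real.log N ^ 2)) + K1 * Real.log N ^ 2 by ring,
          Real.exp_add, Real.exp_add]
        have : Real.exp (K1 * Real.log N ^ 2) * Real.exp (-(K1 * Real.log N ^ 2)) = 1 := by
          rw [← Real.exp_add]; simp
        calc _ = Real.exp (-y) * Real.exp (K2 * (4 * Real.log N ^ 2)) * H981.mu ^ (2 * N - 1) * 1 := by
              ring
          _ = Real.exp (-y) * Real.exp (K2 * (4 * Real.log N ^ 2)) * H981.mu ^ (2 * N - 1) *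
              (Real.exp (K1 * Real.log N ^ 2) * Real.exp (-(K1 * Real.log N ^ 2))) := by rw [this]
          _ = _ := by ring
    _ ≤ _ := mul_le_mul_of_nonneg_left h3 (Real.exp_pos _).le

/-- counting over the vertices of the polygon and over the vertices of the walk -/
theorem card_phi {N : ℕ} (hN : 2 ≤ N) (f : ZMod (2 * N) → ℤ × ℤ) (P : ℤ × ℤ → Prop) :
    ({i : ZMod (2 * N) | P (f i)} : Set (ZMod (2 * N))).ncard ≤
      (Finset.univ.filter (fun k : Fin (2 * N - 1 + 1) => P (phi N f k))).card := by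
  have : NeZero (2 * N) := ⟨by omega⟩
  rw [← Set.ncard_coe_finset]
  refine Set.ncard_le_ncard_of_injOn (fun i : ZMod (2 * N) =>
    (⟨i.val, by have := ZMod.val_lt i; omega⟩ : Fin (2 * N - 1 + 1))) ?_ ?_ (Finset.finite_toSet _)
  · intro i hi
    rw [Set.mem_ofPred_eq] at hi
    rw [Finset.mem_coe, Finset.mem_filter]
    refine ⟨Finset.mem_univ _, ?_⟩
    unfold phi
    simp only [ZMod.natCast_zmod_val]
    exact hi
  · intro i _ j _ h
    simp only [Fin.mk.injEq] at h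
    exact ZMod.val_injective _ h

/-- **Lines and circles with a polygon on one side.** -/
theorem poly_lines_circles : ∃ K : ℝ, 0 < K ∧ ∀ N : ℕ, 2 ≤ N → ∀ x : ℝ, 0 ≤ x →
    (((PL N).filter (fun f => ¬ ∀ r : ℕ,
      (∀ a b c : ℝ, (a ≠ 0 ∨ b ≠ 0) → (∀ i, c ≤ a * (f i).1 + b * (f i).2) →
        ((({i | a * (f i).1 + b * (f i).2 ≤ c + r * Real.sqrt (a ^ 2 + b ^ 2)} :
          Set (ZMod (2 * N))).ncard : ℕ) : ℝ) ≤ K ^ (r + 1) * (Real.log N ^ 2 + x)) ∧
      (∀ (z : ℝ × ℝ) (ρ : ℝ), (∀ i, ρ ≤ EE z (f i)) →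
        ((({i | EE z (f i) ≤ ρ + r} : Set (ZMod (2 * N))).ncard : ℕ) : ℝ) ≤
          K ^ (r + 1) * (Real.log N ^ 2 + x)) ∧
      (∀ (z : ℝ × ℝ) (ρ : ℝ), (∀ i, EE z (f i) ≤ ρ) →
        ((({i | ρ - r ≤ EE z (f i)} : Set (ZMod (2 * N))).ncard : ℕ) : ℝ) ≤
          K ^ (r + 1) * (Real.log N ^ 2 + x)))).card : ℝ) ≤ Real.exp (-x) * (PL N).card := by
  obtain ⟨K, hK, h⟩ := poly_prob
  have hKR : (1 : ℝ) ≤ KR := by unfold KR; norm_num
  refine ⟨KR * (K + 6), by positivity, fun N hN x hx => ?_⟩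
  have hl := log_ge hN
  have hN0 : (2 : ℝ) ≤ N := by exact_mod_cast hN
  have hy : 0 ≤ x + K * Real.log N ^ 2 := by positivity
  obtain ⟨E, hE⟩ : ∃ E : Set (Fin (2 * N - 1 + 1) → ℤ × ℤ), E = {ω : Fin (2 * N - 1 + 1) → ℤ × ℤ | ¬ ∀ r : ℕ,
        (∀ a b c : ℝ, (a ≠ 0 ∨ b ≠ 0) → (∀ i, c ≤ a * (ω i).1 + b * (ω i).2) →
          (nL a b c r ω : ℝ) ≤ KR ^ (r + 1) *
            (Real.log ((2 * N - 1 : ℕ) : ℝ) + (x + K * Real.log N ^ 2))) ∧
        (∀ (z : ℝ × ℝ) (ρ : ℝ), (∀ i, ρ ≤ EE z (ω i)) →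
          (nO z ρ r ω : ℝ) ≤ KR ^ (r + 1) *
            (Real.log ((2 * N - 1 : ℕ) : ℝ) + (x + K * Real.log N ^ 2))) ∧
        (∀ (z : ℝ × ℝ) (ρ : ℝ), (∀ i, EE z (ω i) ≤ ρ) →
          (nI z ρ r ω : ℝ) ≤ KR ^ (r + 1) *
            (Real.log ((2 * N - 1 : ℕ) : ℝ) + (x + K * Real.log N ^ 2)))} := ⟨_, rfl⟩
  have h1 : ((({ω | SW (2 * N - 1) ω ∧ ω ∈ E} :
      Set (Fin (2 * N - 1 + 1) → ℤ × ℤ)).ncard : ℕ) : ℝ) ≤
      Real.exp (-(x + K * Real.log N ^ 2)) * cN (2 * N - 1) := by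
    rw [hE]
    exact lines_circles (n := 2 * N - 1) (by omega) hy
  have h2 := h N hN E _ h1
  rw [show -(x + K * Real.log N ^ 2) + K * Real.log N ^ 2 = -x by ring] at h2
  refine le_trans ?_ h2
  have hthr : ∀ r : ℕ, KR ^ (r + 1) * (Real.log ((2 * N - 1 : ℕ) : ℝ) + (x + K * Real.log N ^ 2)) ≤
      (KR * (K + 6)) ^ (r + 1) * (Real.log N ^ 2 + x) := by
    intro r
    have e1 : Real.log ((2 * N - 1 : ℕ) : ℝ) ≤ 2 * Real.log N := by
      have h3 : Real.log ((2 * N - 1 : ℕ) : ℝ) ≤ Real.log (2 * N) := by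
        refine Real.log_le_log ?_ ?_
        · exact_mod_cast (by omega : 0 < 2 * N - 1)
        · have : ((2 * N - 1 : ℕ) : ℝ) ≤ ((2 * N : ℕ) : ℝ) := by exact_mod_cast Nat.sub_le _ _
          push_cast at this
          exact this
      rw [Real.log_mul (by norm_num) (by linarith)] at h3
      have := Real.log_le_log (by norm_num) hN0
      linarith
    have e2 : Real.log ((2 * N - 1 : ℕ) : ℝ) + (x + K * Real.log N ^ 2) ≤
        (K + 6) * (Real.log N ^ 2 + x) := by nlinarith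
    calc _ ≤ KR ^ (r + 1) * ((K + 6) * (Real.log N ^ 2 + x)) :=
          mul_le_mul_of_nonneg_left e2 (by positivity)
      _ ≤ KR ^ (r + 1) * ((K + 6) ^ (r + 1) * (Real.log N ^ 2 + x)) := by
          refine mul_le_mul_of_nonneg_left ?_ (by positivity)
          refine mul_le_mul_of_nonneg_right ?_ (by positivity)
          exact le_self_pow₀ (by linarith) (by omega)
      _ = _ := by rw [mul_pow]; ring
  have hall : ∀ (f : ZMod (2 * N) → ℤ × ℤ) (P : ℤ × ℤ → Prop), (∀ i, P (f i)) →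
      ∀ k : Fin (2 * N - 1 + 1), P (phi N f k) := fun f P hP k => hP _
  refine Nat.cast_le.2 (Finset.card_le_card ?_)
  intro f hf
  rw [Finset.mem_filter] at hf ⊢
  refine ⟨hf.1, ?_⟩
  rw [hE, Set.mem_ofPred_eq]
  intro hcon
  apply hf.2
  intro r
  obtain ⟨g1, g2, g3⟩ := hcon r
  refine ⟨?_, ?_, ?_⟩
  · intro a b c hab hw
    have h3 := g1 a b c hab (hall f (fun p => c ≤ a * p.1 + b * p.2) hw)
    have h4 := card_phi hN f (fun p => a * p.1 + b * p.2 ≤ c + r * Real.sqrt (a ^ 2 + b ^ 2))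
    have h5 : ((({i | a * (f i).1 + b * (f i).2 ≤ c + r * Real.sqrt (a ^ 2 + b ^ 2)} :
        Set (ZMod (2 * N))).ncard : ℕ) : ℝ) ≤ (nL a b c r (phi N f) : ℝ) := by exact_mod_cast h4
    exact h5.trans (h3.trans (hthr r))
  · intro z ρ hw
    have h3 := g2 z ρ (hall f (fun p => ρ ≤ EE z p) hw)
    have h4 := card_phi hN f (fun p => EE z p ≤ ρ + r)
    have h5 : ((({i | EE z (f i) ≤ ρ + r} : Set (ZMod (2 * N))).ncard : ℕ) : ℝ) ≤
        (nO z ρ r (phi N f) : ℝ) := by exact_mod_cast h4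
    exact h5.trans (h3.trans (hthr r))
  · intro z ρ hw
    have h3 := g3 z ρ (hall f (fun p => EE z p ≤ ρ) hw)
    have h4 := card_phi hN f (fun p => ρ - r ≤ EE z p)
    have h5 : ((({i | ρ - r ≤ EE z (f i)} : Set (ZMod (2 * N))).ncard : ℕ) : ℝ) ≤
        (nI z ρ r (phi N f) : ℝ) := by exact_mod_cast h4
    exact h5.trans (h3.trans (hthr r))

end Pool.Agent.U372.HP
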