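import Pool.Agent.U372.HP.Geo2

/-!
# Circles which have the walk on one side
-/

set_option autoImplicit false

namespace Pool.Agent.U372.HP

open scoped Classical
open Pool.Agent.W840.CT Pool.Agent.U126.NC

/-- the distance of the lattice point `p` from `z` -/
noncomputable def EE (z : ℝ × ℝ) (p : ℤ × ℤ) : ℝ :=
  Real.sqrt (((p.1 : ℝ) - z.1) ^ 2 + ((p.2 : ℝ) - z.2) ^ 2)

theorem EE_eq (z : ℝ × ℝ) (p : ℤ × ℤ) : EE z p = ‖(⟨p.1, p.2⟩ : ℂ) - ⟨z.1, z.2⟩‖ := by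
  unfold EE
  rw [Complex.norm_eq_sqrt_sq_add_sq]
  simp

/-- the corner of the unit square of `z` -/
noncomputable def fl (z : ℝ × ℝ) : ℤ × ℤ := (⌊z.1⌋, ⌊z.2⌋)

theorem fl_dist (z : ℝ × ℝ) (p : ℤ × ℤ) :
    |EE z p - EE ((fl z).1, (fl z).2) p| ≤ 3 / 2 := by
  rw [EE_eq, EE_eq]
  refine (abs_norm_sub_norm_le _ _).trans ?_
  have e : ((⟨p.1, p.2⟩ : ℂ) - ⟨z.1, z.2⟩ - ((⟨p.1, p.2⟩ : ℂ) - ⟨((fl z).1 : ℝ), ((fl z).2 : ℝ)⟩)) =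
      ⟨((fl z).1 : ℝ) - z.1, ((fl z).2 : ℝ) - z.2⟩ := by
    apply Complex.ext <;> simp
  rw [e, Complex.norm_eq_sqrt_sq_add_sq]
  simp only
  rw [Real.sqrt_le_left (by norm_num)]
  have h1 := Int.floor_le z.1
  have h2 := Int.lt_floor_add_one z.1
  have h3 := Int.floor_le z.2
  have h4 := Int.lt_floor_add_one z.2
  unfold fl
  simp only
  nlinarith

theorem EE_int (z : ℤ × ℤ) (p : ℤ × ℤ) : EE ((z.1 : ℝ), (z.2 : ℝ)) p =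
    Real.sqrt ((((p.1 - z.1 : ℤ) : ℝ)) ^ 2 + (((p.2 - z.2 : ℤ) : ℝ)) ^ 2) := by
  unfold EE
  push_cast
  rfl

theorem fl_le (z : ℝ × ℝ) {M : ℕ} (h : EE z (0, 0) ≤ M) :
    -((M : ℤ) + 1) ≤ (fl z).1 ∧ (fl z).1 ≤ M + 1 ∧ -((M : ℤ) + 1) ≤ (fl z).2 ∧
      (fl z).2 ≤ M + 1 := by
  unfold EE at h
  simp only [Int.cast_zero, zero_sub, neg_sq] at h
  rw [Real.sqrt_le_left (Nat.cast_nonneg _)] at h
  have hM : (0 : ℝ) ≤ M := Nat.cast_nonneg _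
  have h1 : |z.1| ≤ M := by
    apply abs_le_of_sq_le_sq _ hM
    nlinarith [sq_nonneg z.2]
  have h2 : |z.2| ≤ M := by
    apply abs_le_of_sq_le_sq _ hM
    nlinarith [sq_nonneg z.1]
  rw [abs_le] at h1 h2
  unfold fl
  refine ⟨?_, ?_, ?_, ?_⟩
  · rw [Int.le_floor]; push_cast; linarith
  · have : ((⌊z.1⌋ : ℤ) : ℝ) ≤ ((M + 1 : ℤ) : ℝ) := by
      push_cast
      have := Int.floor_le z.1
      linarith
    exact_mod_cast this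
  · rw [Int.le_floor]; push_cast; linarith
  · have : ((⌊z.2⌋ : ℤ) : ℝ) ≤ ((M + 1 : ℤ) : ℝ) := by
      push_cast
      have := Int.floor_le z.2
      linarith
    exact_mod_cast this

/-- the walk is outside of a circle with the centre not too far -/
theorem out_core (P : Set (ℤ × ℤ)) (h0 : (0, 0) ∈ P) {M : ℕ} (z : ℝ × ℝ)
    (hz : EE z (0, 0) ≤ M) {ρ : ℝ} (hρ : 4 ≤ ρ) (hw : ∀ p ∈ P, ρ ≤ EE z p) (r : ℕ) :
    ∃ (z' : ℤ × ℤ) (R : ℤ), -((M : ℤ) + 1) ≤ z'.1 ∧ z'.1 ≤ M + 1 ∧ -((M : ℤ) + 1) ≤ z'.2 ∧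
      z'.2 ≤ M + 1 ∧ 1 ≤ R ∧ R ≤ M ∧ (∀ p ∈ P, p ∉ DO z' R) ∧
      ∀ p ∈ P, EE z p ≤ ρ + r →
        ∃ u ∈ DO z' R, |p.1 - u.1| + |p.2 - u.2| ≤ ((5 * r + 25 : ℕ) : ℤ) := by
  obtain ⟨g1, g2, g3, g4⟩ := fl_le z hz
  have f1 := Int.floor_le ρ
  have f2 := Int.lt_floor_add_one ρ
  have hR1 : (1 : ℤ) ≤ ⌊ρ⌋ - 2 := by
    have : (4 : ℤ) ≤ ⌊ρ⌋ := by rw [Int.le_floor]; push_cast; exact hρ
    omega
  refine ⟨fl z, ⌊ρ⌋ - 2, g1, g2, g3, g4, hR1, ?_, ?_, ?_⟩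
  · have h1 := hw _ h0
    have h2 : ((⌊ρ⌋ - 2 : ℤ) : ℝ) ≤ ((M : ℤ) : ℝ) := by push_cast; linarith
    exact_mod_cast h2
  · intro p hp hm
    unfold DO at hm
    simp only [Set.mem_ofPred_eq] at hm
    have h1 := hw p hp
    have h2 := (abs_le.1 (fl_dist z p)).2
    rw [EE_int] at h2
    have h3 : Real.sqrt ((((p.1 - (fl z).1 : ℤ) : ℝ)) ^ 2 + (((p.2 - (fl z).2 : ℤ) : ℝ)) ^ 2) ≤
        ((⌊ρ⌋ - 2 : ℤ) : ℝ) := by
      rw [Real.sqrt_le_left (by have : (0 : ℤ) ≤ ⌊ρ⌋ - 2 := by omega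
                                exact_mod_cast this)]
      exact_mod_cast hm
    push_cast at h3 h2
    linarith
  · intro p hp hn
    have h2 := (abs_le.1 (fl_dist z p)).1
    rw [EE_int] at h2
    obtain ⟨u, hu1, hu2⟩ := walk_in (⌊ρ⌋ - 2) hR1 (5 * r + 25) (p.1 - (fl z).1, p.2 - (fl z).2) (by
      simp only
      push_cast at h2 ⊢
      linarith)
    refine ⟨(u.1 + (fl z).1, u.2 + (fl z).2), ?_, ?_⟩
    · unfold DO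
      simp only [Set.mem_ofPred_eq, add_sub_cancel_right]
      exact hu1
    · simp only at hu2 ⊢
      rw [show p.1 - (u.1 + (fl z).1) = p.1 - (fl z).1 - u.1 by ring,
        show p.2 - (u.2 + (fl z).2) = p.2 - (fl z).2 - u.2 by ring]
      exact hu2

/-- the walk is inside of a circle with the centre not too far -/
theorem in_core {n : ℕ} (P : Set (ℤ × ℤ)) (hP : ∀ p ∈ P, |(p.1 : ℝ)| + |(p.2 : ℝ)| ≤ n)
    (h0 : (0, 0) ∈ P) {M : ℕ} (z : ℝ × ℝ)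
    (hz : EE z (0, 0) ≤ M) {ρ : ℝ} (hw : ∀ p ∈ P, EE z p ≤ ρ) (r : ℕ)
    (hex : ∃ p ∈ P, ρ - r ≤ EE z p) :
    ∃ (z' : ℤ × ℤ) (R : ℤ), -((M : ℤ) + 1) ≤ z'.1 ∧ z'.1 ≤ M + 1 ∧ -((M : ℤ) + 1) ≤ z'.2 ∧
      z'.2 ≤ M + 1 ∧ 0 ≤ R ∧ R ≤ M + n + r + 3 ∧ (∀ p ∈ P, p ∉ DI z' R) ∧
      ∀ p ∈ P, ρ - r ≤ EE z p →
        ∃ u ∈ DI z' R, |p.1 - u.1| + |p.2 - u.2| ≤ ((5 * r + 25 : ℕ) : ℤ) := by
  obtain ⟨g1, g2, g3, g4⟩ := fl_le z hz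
  have f1 := Int.le_ceil ρ
  have f2 := Int.ceil_lt_add_one ρ
  have hρ0 : 0 ≤ ρ := (Real.sqrt_nonneg _).trans (hw _ h0)
  have hR0 : (0 : ℤ) ≤ ⌈ρ⌉ + 2 := by
    have := Int.ceil_nonneg hρ0
    omega
  have hR0' : (0 : ℝ) ≤ ((⌈ρ⌉ + 2 : ℤ) : ℝ) := by exact_mod_cast hR0
  refine ⟨fl z, ⌈ρ⌉ + 2, g1, g2, g3, g4, hR0, ?_, ?_, ?_⟩
  · obtain ⟨p, hp, hn⟩ := hex
    have h1 : EE z p ≤ EE z (0, 0) + n := by
      rw [EE_eq, EE_eq]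
      have e : (⟨p.1, p.2⟩ : ℂ) - ⟨z.1, z.2⟩ =
          ((⟨((0, 0) : ℤ × ℤ).1, ((0, 0) : ℤ × ℤ).2⟩ : ℂ) - ⟨z.1, z.2⟩) + ⟨p.1, p.2⟩ := by
        apply Complex.ext
        · simp
          ring
        · simp
          ring
      rw [e]
      refine (norm_add_le _ _).trans ?_
      have h2 : ‖(⟨p.1, p.2⟩ : ℂ)‖ ≤ n :=
        (Complex.norm_le_abs_re_add_abs_im _).trans (hP p hp)
      linarith
    have h2 : ((⌈ρ⌉ + 2 : ℤ) : ℝ) ≤ ((M + n + r + 3 : ℤ) : ℝ) := by push_cast; linarith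
    exact_mod_cast h2
  · intro p hp hm
    unfold DI at hm
    simp only [Set.mem_ofPred_eq] at hm
    have h1 := hw p hp
    have h2 := (abs_le.1 (fl_dist z p)).1
    rw [EE_int] at h2
    have h3 : ((⌈ρ⌉ + 2 : ℤ) : ℝ) ≤
        Real.sqrt ((((p.1 - (fl z).1 : ℤ) : ℝ)) ^ 2 + (((p.2 - (fl z).2 : ℤ) : ℝ)) ^ 2) := by
      refine Real.le_sqrt_of_sq_le ?_
      exact_mod_cast hm
    push_cast at h3 h2
    linarith
  · intro p hp hn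
    have h2 := (abs_le.1 (fl_dist z p)).2
    rw [EE_int] at h2
    obtain ⟨u, hu1, hu2⟩ := walk_out (⌈ρ⌉ + 2) hR0 (5 * r + 25) (p.1 - (fl z).1, p.2 - (fl z).2) (by
      simp only
      push_cast at h2 ⊢
      linarith)
    refine ⟨(u.1 + (fl z).1, u.2 + (fl z).2), ?_, ?_⟩
    · unfold DI
      simp only [Set.mem_ofPred_eq, add_sub_cancel_right]
      exact hu1
    · simp only at hu2 ⊢
      rw [show p.1 - (u.1 + (fl z).1) = p.1 - (fl z).1 - u.1 by ring,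
        show p.2 - (u.2 + (fl z).2) = p.2 - (fl z).2 - u.2 by ring]
      exact hu2

/-- circles with a distant centre are almost lines -/
theorem far_circle {n : ℕ} (hn : 2 ≤ n) {p : ℤ × ℤ} (hp : |(p.1 : ℝ)| + |(p.2 : ℝ)| ≤ n)
    {z : ℝ × ℝ} (hz : (n : ℝ) ^ 2 < EE z (0, 0)) :
    EE z (0, 0) ^ 2 - (p.1 * z.1 + p.2 * z.2) ≤ EE z (0, 0) * EE z p ∧
      EE z (0, 0) * EE z p ≤ EE z (0, 0) ^ 2 - (p.1 * z.1 + p.2 * z.2) + EE z (0, 0) := by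
  have hn' : (2 : ℝ) ≤ n := by exact_mod_cast hn
  set Z := EE z (0, 0) with hZ
  have hZ0 : 0 < Z := lt_of_le_of_lt (by positivity) hz
  have hZ2 : Z ^ 2 = z.1 ^ 2 + z.2 ^ 2 := by
    rw [hZ]; unfold EE
    simp only [Int.cast_zero, zero_sub, neg_sq]
    exact Real.sq_sqrt (by positivity)
  set D := EE z p with hD
  have hD0 : 0 ≤ D := Real.sqrt_nonneg _
  have hD2 : D ^ 2 = ((p.1 : ℝ) - z.1) ^ 2 + ((p.2 : ℝ) - z.2) ^ 2 := by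
    rw [hD]; unfold EE
    exact Real.sq_sqrt (by positivity)
  set x : ℝ := (p.1 : ℝ) with hx
  set y : ℝ := (p.2 : ℝ) with hy
  have hxy : x ^ 2 + y ^ 2 ≤ (n : ℝ) ^ 2 := by
    have h1 : (|x| + |y|) ^ 2 ≤ (n : ℝ) ^ 2 := pow_le_pow_left₀ (by positivity) hp 2
    nlinarith [sq_abs x, sq_abs y, mul_nonneg (abs_nonneg x) (abs_nonneg y)]
  set T : ℝ := x * z.1 + y * z.2 with hT
  have hCS : T ^ 2 ≤ (x ^ 2 + y ^ 2) * Z ^ 2 := by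
    rw [hZ2, hT]
    nlinarith [sq_nonneg (x * z.2 - y * z.1)]
  have hD2' : D ^ 2 = Z ^ 2 - 2 * T + (x ^ 2 + y ^ 2) := by rw [hD2, hZ2, hT]; ring
  have hTn : |T| ≤ n * Z := by
    apply abs_le_of_sq_le_sq _ (by positivity)
    nlinarith [sq_nonneg Z]
  have hTn' := (abs_le.1 hTn).2
  have hpos : (n : ℝ) ^ 2 * Z - n * Z ≤ Z ^ 2 - T := by nlinarith
  have hpos' : 0 ≤ Z ^ 2 - T := by nlinarith [mul_pos hZ0 hZ0]
  constructor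
  · refine abs_le_of_sq_le_sq' ?_ (by positivity) |>.2
    nlinarith
  · refine abs_le_of_sq_le_sq' ?_ (by nlinarith) |>.2
    have h1 : (Z * D) ^ 2 = Z ^ 2 * (Z ^ 2 - 2 * T) + (x ^ 2 + y ^ 2) * Z ^ 2 := by
      rw [mul_pow, hD2']; ring
    rw [h1]
    have h2 : (x ^ 2 + y ^ 2) * Z ^ 2 ≤ (n : ℝ) ^ 2 * Z ^ 2 :=
      mul_le_mul_of_nonneg_right hxy (by positivity)
    have h3 : (n : ℝ) ^ 2 * Z ^ 2 ≤ 2 * Z * (Z ^ 2 - T) + Z ^ 2 := by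
      have h4 : 2 * Z * ((n : ℝ) ^ 2 * Z - n * Z) ≤ 2 * Z * (Z ^ 2 - T) :=
        mul_le_mul_of_nonneg_left hpos (by positivity)
      have h5 : (n : ℝ) ^ 2 * Z ^ 2 ≤ 2 * Z * ((n : ℝ) ^ 2 * Z - n * Z) + Z ^ 2 := by
        have : 0 ≤ Z ^ 2 * ((n : ℝ) - 1) ^ 2 := by positivity
        nlinarith
      linarith
    nlinarith [sq_nonneg T]

end Pool.Agent.U372.HP
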