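import Pool.Agent.U126.NC.Cnt
import Pool.Agent.W840.CT.Split

/-!
# A self-avoiding walk is seldom close to the members of a family of sets which it avoids
-/

set_option autoImplicit false

namespace Pool.Agent.U372.HP

open scoped Classical
open Pool.Agent.W840.CT Pool.Agent.U126.NC

/-- number of times at which the walk is within distance `r` of `A` -/
noncomputable def nt {n : ℕ} (A : Set (ℤ × ℤ)) (r : ℕ) (ω : Fin (n + 1) → ℤ × ℤ) : ℕ :=
  (Finset.univ.filter (fun i : Fin (n + 1) =>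
    ∃ u ∈ A, |(ω i).1 - u.1| + |(ω i).2 - u.2| ≤ (r : ℤ))).card

/-- the constant -/
def CK (k : ℕ) : ℕ := DD k * (k + 7)

theorem mem_li {n : ℕ} (ω : Fin (n + 1) → ℤ × ℤ) (i : Fin (n + 1)) : ω i ∈ li ω := by
  unfold li
  rw [List.mem_map]
  exact ⟨i.1, List.mem_range.2 i.2, ex_val ω i⟩

theorem of_mem_li {n : ℕ} {ω : Fin (n + 1) → ℤ × ℤ} {v : ℤ × ℤ} (h : v ∈ li ω) :
    ∃ i, ω i = v := by
  unfold li at h
  rw [List.mem_map] at h
  obtain ⟨j, hj, rfl⟩ := h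
  rw [List.mem_range] at hj
  exact ⟨⟨j, hj⟩, (ex_val ω ⟨j, hj⟩).symm⟩

theorem nt_le {n : ℕ} {ω : Fin (n + 1) → ℤ × ℤ} (h : SW n ω) (A : Set (ℤ × ℤ)) (k : ℕ) :
    nt A k ω ≤ (VV A k (li ω)).card := by
  unfold nt VV
  refine Finset.card_le_card_of_injOn ω ?_ ?_
  · intro i hi
    simp only [Finset.coe_filter, Finset.mem_univ, true_and, Set.mem_ofPred_eq] at hi
    simp only [Finset.coe_filter, List.mem_toFinset, Set.mem_ofPred_eq]
    exact ⟨mem_li ω i, hi⟩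
  · intro i _ j _ hij
    exact h.2.2 hij

theorem one {A : Set (ℤ × ℤ)} (hA : ∀ u ∈ A, ∃ u' ∈ A, adj u u') (n k r : ℕ) :
    4 ^ r * ({ω | SW n ω ∧ (∀ i, ω i ∉ A) ∧ CK k * (r + 1) ≤ nt A k ω} :
      Set (Fin (n + 1) → ℤ × ℤ)).ncard ≤ (LS n).ncard := by
  refine (Nat.mul_le_mul_left _ ?_).trans (main' A (fun u hu _ => hA u hu) n k r)
  refine Set.ncard_le_ncard_of_injOn li ?_ ?_ ((LS_finite n).subset (fun B hB => hB.1))
  · rintro ω ⟨h1, h2, h3⟩
    refine ⟨li_mem h1, ?_, h3.trans (nt_le h1 A k)⟩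
    intro v hv hvA
    obtain ⟨i, rfl⟩ := of_mem_li hv
    exact absurd hvA (h2 i)
  · rintro ω - ω' - h
    exact li_inj h

theorem SW_fin (n : ℕ) : ({ω | SW n ω} : Set (Fin (n + 1) → ℤ × ℤ)).Finite := by
  refine Set.Finite.of_finite_image (f := li) ((LS_finite n).subset ?_) ?_
  · rintro _ ⟨ω, hω, rfl⟩
    exact li_mem hω
  · intro a _ b _ h
    exact li_inj h

/-- number of the walks -/
noncomputable def cN (n : ℕ) : ℝ := (({ω | SW n ω} : Set (Fin (n + 1) → ℤ × ℤ)).ncard : ℝ)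

theorem LS_le_cN (n : ℕ) : ((LS n).ncard : ℝ) ≤ cN n := by
  unfold cN
  have h : (LS n).ncard ≤ ({ω | SW n ω} : Set (Fin (n + 1) → ℤ × ℤ)).ncard :=
    (LS_le n).trans (le_of_eq (Nat.card_coe_set_eq _))
  exact_mod_cast h

theorem tail_one {A : Set (ℤ × ℤ)} (hA : ∀ u ∈ A, ∃ u' ∈ A, adj u u') (n k : ℕ) {t : ℝ}
    (ht : 0 ≤ t) :
    ((({ω | SW n ω ∧ (∀ i, ω i ∉ A) ∧ (CK k : ℝ) * (t + 2) < nt A k ω} :
      Set (Fin (n + 1) → ℤ × ℤ)).ncard : ℕ) : ℝ) ≤ Real.exp (-t) * cN n := by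
  have h := one hA n k ⌈t⌉₊
  have hsub : ({ω | SW n ω ∧ (∀ i, ω i ∉ A) ∧ (CK k : ℝ) * (t + 2) < nt A k ω} :
      Set (Fin (n + 1) → ℤ × ℤ)) ⊆
      {ω | SW n ω ∧ (∀ i, ω i ∉ A) ∧ CK k * (⌈t⌉₊ + 1) ≤ nt A k ω} := by
    rintro ω ⟨h1, h2, h3⟩
    refine ⟨h1, h2, ?_⟩
    have h4 : ((⌈t⌉₊ : ℕ) : ℝ) < t + 1 := Nat.ceil_lt_add_one ht
    have h5 : ((CK k * (⌈t⌉₊ + 1) : ℕ) : ℝ) ≤ nt A k ω := by
      push_cast
      have h6 : (CK k : ℝ) * ((⌈t⌉₊ : ℝ) + 1) ≤ (CK k : ℝ) * (t + 2) :=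
        mul_le_mul_of_nonneg_left (by linarith) (Nat.cast_nonneg _)
      linarith
    exact_mod_cast h5
  have h1 := Set.ncard_le_ncard hsub ((SW_fin n).subset (fun ω hω => hω.1))
  have h2 : (4 : ℝ) ^ ⌈t⌉₊ * (({ω | SW n ω ∧ (∀ i, ω i ∉ A) ∧
      CK k * (⌈t⌉₊ + 1) ≤ nt A k ω} : Set (Fin (n + 1) → ℤ × ℤ)).ncard : ℝ) ≤
      (LS n).ncard := by exact_mod_cast h
  have h3 : Real.exp t ≤ 4 ^ ⌈t⌉₊ := by
    calc Real.exp t ≤ Real.exp (⌈t⌉₊ : ℝ) := Real.exp_le_exp.2 (Nat.le_ceil t)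
      _ = Real.exp 1 ^ ⌈t⌉₊ := by rw [← Real.exp_nat_mul, mul_one]
      _ ≤ 4 ^ ⌈t⌉₊ := by
        refine pow_le_pow_left₀ (Real.exp_pos 1).le ?_ _
        have := Real.exp_one_lt_d9
        linarith
  have h4 := LS_le_cN n
  set X : ℝ := (({ω | SW n ω ∧ (∀ i, ω i ∉ A) ∧
      CK k * (⌈t⌉₊ + 1) ≤ nt A k ω} : Set (Fin (n + 1) → ℤ × ℤ)).ncard : ℝ) with hX
  have hX0 : 0 ≤ X := Nat.cast_nonneg _
  have h5 : Real.exp t * X ≤ cN n := (mul_le_mul_of_nonneg_right h3 hX0).trans (h2.trans h4)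
  have h6 : X ≤ Real.exp (-t) * cN n := by
    calc X = Real.exp (-t) * (Real.exp t * X) := by
          rw [← mul_assoc, ← Real.exp_add]; simp
      _ ≤ _ := mul_le_mul_of_nonneg_left h5 (Real.exp_pos _).le
  refine le_trans ?_ h6
  rw [hX]
  exact_mod_cast h1

/-- the union bound over the members of finite families, one for each distance -/
theorem fam (n : ℕ) (F : ℕ → Finset (Set (ℤ × ℤ)))
    (hF : ∀ r, ∀ A ∈ F r, ∀ u ∈ A, ∃ u' ∈ A, adj u u') (k : ℕ → ℕ) (L : ℕ → ℝ)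
    (hL0 : ∀ r, 0 ≤ L r) (hL : ∀ r, ((F r).card : ℝ) ≤ Real.exp (L r)) {x : ℝ} (hx : 0 ≤ x) :
    ((({ω | SW n ω ∧ ∃ r < n, ∃ A ∈ F r, (∀ i, ω i ∉ A) ∧
      (CK (k r) : ℝ) * (L r + r + x + 3) < nt A (k r) ω} :
        Set (Fin (n + 1) → ℤ × ℤ)).ncard : ℕ) : ℝ) ≤ Real.exp (-x) * cN n := by
  set S : ℕ → Set (ℤ × ℤ) → Finset (Fin (n + 1) → ℤ × ℤ) := fun r A =>
    (SW_fin n).toFinset.filter (fun ω => (∀ i, ω i ∉ A) ∧
      (CK (k r) : ℝ) * (L r + r + x + 3) < nt A (k r) ω) with hS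
  have h0 : ({ω | SW n ω ∧ ∃ r < n, ∃ A ∈ F r, (∀ i, ω i ∉ A) ∧
      (CK (k r) : ℝ) * (L r + r + x + 3) < nt A (k r) ω} :
        Set (Fin (n + 1) → ℤ × ℤ)) ⊆
      (((Finset.range n).biUnion (fun r => (F r).biUnion (S r)) :
        Finset (Fin (n + 1) → ℤ × ℤ)) : Set (Fin (n + 1) → ℤ × ℤ)) := by
    rintro ω ⟨h1, r, hr, A, hA, h2, h3⟩
    rw [Finset.mem_coe, Finset.mem_biUnion]
    refine ⟨r, Finset.mem_range.2 hr, ?_⟩
    rw [Finset.mem_biUnion]
    refine ⟨A, hA, ?_⟩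
    rw [hS]
    simp only [Finset.mem_filter, Set.Finite.mem_toFinset]
    exact ⟨h1, h2, h3⟩
  have h1 := Set.ncard_le_ncard h0 (Finset.finite_toSet _)
  rw [Set.ncard_coe_finset] at h1
  have h2 : ∀ r, ∀ A ∈ F r, ((S r A).card : ℝ) ≤ Real.exp (-(L r + r + x + 1)) * cN n := by
    intro r A hA
    have h3 := tail_one (hF r A hA) n (k r) (t := L r + r + x + 1)
      (by have := hL0 r; positivity)
    refine le_trans (le_of_eq ?_) h3
    have e : ({ω | SW n ω ∧ (∀ i, ω i ∉ A) ∧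
        (CK (k r) : ℝ) * (L r + r + x + 1 + 2) < nt A (k r) ω} :
        Set (Fin (n + 1) → ℤ × ℤ)) = ((S r A : Finset (Fin (n + 1) → ℤ × ℤ)) :
          Set (Fin (n + 1) → ℤ × ℤ)) := by
      ext ω
      rw [hS]
      simp only [Finset.coe_filter, Set.Finite.mem_toFinset, Set.mem_ofPred_eq]
      rw [show L r + r + x + 1 + 2 = L r + r + x + 3 by ring]
    rw [e, Set.ncard_coe_finset]
  have hc : 0 ≤ cN n := Nat.cast_nonneg _
  calc _ ≤ ((((Finset.range n).biUnion (fun r => (F r).biUnion (S r))).card : ℕ) : ℝ) := by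
        exact_mod_cast h1
    _ ≤ ∑ r ∈ Finset.range n, ∑ A ∈ F r, ((S r A).card : ℝ) := by
        have h4 : ((Finset.range n).biUnion (fun r => (F r).biUnion (S r))).card ≤
            ∑ r ∈ Finset.range n, ∑ A ∈ F r, (S r A).card :=
          Finset.card_biUnion_le.trans (Finset.sum_le_sum (fun r _ => Finset.card_biUnion_le))
        exact_mod_cast h4
    _ ≤ ∑ r ∈ Finset.range n, ∑ A ∈ F r, Real.exp (-(L r + r + x + 1)) * cN n :=
        Finset.sum_le_sum (fun r _ => Finset.sum_le_sum (h2 r))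
    _ ≤ ∑ r ∈ Finset.range n, Real.exp (-x) * cN n * (1 / 2) ^ (r + 1) := by
        refine Finset.sum_le_sum (fun r _ => ?_)
        rw [Finset.sum_const, nsmul_eq_mul]
        have h5 : Real.exp (-((r : ℝ) + 1)) ≤ (1 / 2) ^ (r + 1) := by
          have h6 : Real.exp (-1) ≤ 1 / 2 := by
            rw [Real.exp_neg, one_div]
            refine inv_anti₀ (by norm_num) ?_
            have := Real.exp_one_gt_d9
            linarith
          calc Real.exp (-((r : ℝ) + 1)) = Real.exp (-1) ^ (r + 1) := by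
                rw [← Real.exp_nat_mul]
                congr 1
                push_cast
                ring
            _ ≤ _ := pow_le_pow_left₀ (Real.exp_pos _).le h6 _
        calc ((F r).card : ℝ) * (Real.exp (-(L r + r + x + 1)) * cN n)
            ≤ Real.exp (L r) * (Real.exp (-(L r + r + x + 1)) * cN n) :=
              mul_le_mul_of_nonneg_right (hL r) (by positivity)
          _ = Real.exp (-x) * cN n * Real.exp (-((r : ℝ) + 1)) := by
              rw [← mul_assoc, ← Real.exp_add, mul_right_comm, ← Real.exp_add]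
              congr 2
              ring
          _ ≤ _ := mul_le_mul_of_nonneg_left h5 (by positivity)
    _ = Real.exp (-x) * cN n * ∑ r ∈ Finset.range n, (1 / 2 : ℝ) ^ (r + 1) := by
        rw [Finset.mul_sum]
    _ ≤ Real.exp (-x) * cN n * 1 := by
        refine mul_le_mul_of_nonneg_left ?_ (by positivity)
        have h7 : ∀ m : ℕ, ∑ r ∈ Finset.range m, (1 / 2 : ℝ) ^ (r + 1) = 1 - (1 / 2) ^ m := by
          intro m
          induction m with
          | zero => simp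
          | succ m ih => rw [Finset.sum_range_succ, ih]; ring
        rw [h7]
        have : (0 : ℝ) ≤ (1 / 2) ^ n := by positivity
        linarith
    _ = _ := mul_one _

end Pool.Agent.U372.HP
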