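import Pool.Agent.U372.HP.Fam

/-!
# Half-planes and discs: approximation by finitely many sets of lattice points
-/

set_option autoImplicit false

namespace Pool.Agent.U372.HP

open scoped Classical
open Pool.Agent.W840.CT Pool.Agent.U126.NC

/-- the lattice points of an open half-plane -/
def HP (a b k : ℤ) : Set (ℤ × ℤ) := {p | a * p.1 + b * p.2 < k}

/-- the lattice points of a closed disc -/
def DO (z : ℤ × ℤ) (R : ℤ) : Set (ℤ × ℤ) := {p | (p.1 - z.1) ^ 2 + (p.2 - z.2) ^ 2 ≤ R ^ 2}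

/-- the lattice points which are not in an open disc -/
def DI (z : ℤ × ℤ) (R : ℤ) : Set (ℤ × ℤ) := {p | R ^ 2 ≤ (p.1 - z.1) ^ 2 + (p.2 - z.2) ^ 2}

theorem nb_HP (a b k : ℤ) : ∀ u ∈ HP a b k, ∃ u' ∈ HP a b k, adj u u' := by
  intro u hu
  unfold HP at hu ⊢
  simp only [Set.mem_ofPred_eq] at hu
  unfold adj
  rcases lt_or_ge 0 a with h | h
  · refine ⟨(u.1 - 1, u.2), ?_, ?_⟩
    · simp only [Set.mem_ofPred_eq]; nlinarith
    · simp
  · refine ⟨(u.1 + 1, u.2), ?_, ?_⟩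
    · simp only [Set.mem_ofPred_eq]; nlinarith
    · simp

theorem nb_DI (z : ℤ × ℤ) (R : ℤ) : ∀ u ∈ DI z R, ∃ u' ∈ DI z R, adj u u' := by
  intro u hu
  unfold DI at hu ⊢
  simp only [Set.mem_ofPred_eq] at hu
  unfold adj
  rcases lt_or_ge (u.1 - z.1) 0 with h | h
  · refine ⟨(u.1 - 1, u.2), ?_, ?_⟩
    · simp only [Set.mem_ofPred_eq]; nlinarith
    · simp
  · refine ⟨(u.1 + 1, u.2), ?_, ?_⟩
    · simp only [Set.mem_ofPred_eq]; nlinarith
    · simp

theorem nb_DO (z : ℤ × ℤ) {R : ℤ} (hR : 1 ≤ R) : ∀ u ∈ DO z R, ∃ u' ∈ DO z R, adj u u' := by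
  intro u hu
  unfold DO at hu ⊢
  simp only [Set.mem_ofPred_eq] at hu
  unfold adj
  rcases lt_trichotomy (u.1 - z.1) 0 with h | h | h
  · refine ⟨(u.1 + 1, u.2), ?_, ?_⟩
    · simp only [Set.mem_ofPred_eq]; nlinarith
    · simp
  · rcases lt_trichotomy (u.2 - z.2) 0 with h' | h' | h'
    · refine ⟨(u.1, u.2 + 1), ?_, ?_⟩
      · simp only [Set.mem_ofPred_eq]; nlinarith
      · simp
    · refine ⟨(u.1, u.2 + 1), ?_, ?_⟩
      · simp only [Set.mem_ofPred_eq]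
        have e : u.2 + 1 - z.2 = 1 := by omega
        rw [h, e]
        nlinarith
      · simp
    · refine ⟨(u.1, u.2 - 1), ?_, ?_⟩
      · simp only [Set.mem_ofPred_eq]; nlinarith
      · simp
  · refine ⟨(u.1 - 1, u.2), ?_, ?_⟩
    · simp only [Set.mem_ofPred_eq]; nlinarith
    · simp

/-- the walk stays in a box -/
theorem norm_le {n : ℕ} {ω : Fin (n + 1) → ℤ × ℤ} (h : SW n ω) (i : Fin (n + 1)) :
    |(ω i).1| + |(ω i).2| ≤ (i.1 : ℤ) := by
  induction i using Fin.induction with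
  | zero =>
    rw [h.1]
    simp
  | succ i ih =>
    have h1 := h.2.1 i
    have h2 := abs_add_le ((ω i.succ).1 - (ω i.castSucc).1) (ω i.castSucc).1
    have h3 := abs_add_le ((ω i.succ).2 - (ω i.castSucc).2) (ω i.castSucc).2
    rw [sub_add_cancel] at h2 h3
    simp only [Fin.val_castSucc] at ih
    simp only [Fin.val_succ]
    push_cast
    linarith

theorem norm_le' {n : ℕ} {ω : Fin (n + 1) → ℤ × ℤ} (h : SW n ω) (i : Fin (n + 1)) :
    |((ω i).1 : ℝ)| + |((ω i).2 : ℝ)| ≤ n := by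
  have h1 := norm_le h i
  have h2 : (i.1 : ℤ) ≤ n := by have := i.2; omega
  have h3 := h1.trans h2
  exact_mod_cast h3

/-! ### half-planes -/

/-- the half-plane, when the first coefficient is the larger one -/
theorem hp_core {n : ℕ} (α β γ : ℝ) (hα : |α| = 1) (hβ : |β| ≤ 1) (s : ℕ) (P : Set (ℤ × ℤ))
    (hP : ∀ p ∈ P, |(p.1 : ℝ)| + |(p.2 : ℝ)| ≤ n)
    (hw : ∀ p ∈ P, γ ≤ α * p.1 + β * p.2) :
    ∃ a b : ℤ, |a| ≤ n + 1 ∧ |b| ≤ n + 1 ∧
      (∀ p ∈ P, p ∉ HP a b (⌊((n : ℝ) + 1) * γ⌋ - (n + 1))) ∧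
      ∀ p ∈ P, α * p.1 + β * p.2 ≤ γ + 2 * s →
        ∃ u ∈ HP a b (⌊((n : ℝ) + 1) * γ⌋ - (n + 1)),
          |p.1 - u.1| + |p.2 - u.2| ≤ ((2 * s + 3 : ℕ) : ℤ) := by
  set N : ℝ := (n : ℝ) + 1 with hN
  have hN0 : 0 < N := by positivity
  obtain ⟨ε, hε, hαε⟩ : ∃ ε : ℤ, (ε = 1 ∨ ε = -1) ∧ α = ε := by
    rcases abs_eq (zero_le_one (α := ℝ)) |>.1 hα with h | h
    · exact ⟨1, Or.inl rfl, by simp [h]⟩
    · exact ⟨-1, Or.inr rfl, by simp [h]⟩
  set b : ℤ := ⌊N * β⌋ with hb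
  have hb1 : (b : ℝ) ≤ N * β := Int.floor_le _
  have hb2 : N * β < b + 1 := Int.lt_floor_add_one _
  have hβ' := abs_le.1 hβ
  set k : ℤ := ⌊N * γ⌋ - (n + 1) with hk
  have hk1 : (k : ℝ) ≤ N * γ - N := by
    rw [hk]; push_cast
    have := Int.floor_le (N * γ)
    linarith
  have hk2 : N * γ - N - 1 < k := by
    rw [hk]; push_cast
    have := Int.sub_one_lt_floor (N * γ)
    linarith
  have hcmp : ∀ p ∈ P, |N * (α * p.1 + β * p.2) - (((ε * (n + 1) : ℤ) : ℝ) * p.1 + b * p.2)| ≤ n := by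
    intro p hp
    have h1 := hP p hp
    have e : N * (α * p.1 + β * p.2) - (((ε * (n + 1) : ℤ) : ℝ) * p.1 + b * p.2) =
        (N * β - b) * p.2 := by
      rw [hαε]; push_cast; ring
    rw [e, abs_mul]
    have h2 : |N * β - b| ≤ 1 := by rw [abs_le]; constructor <;> linarith
    have h3 := abs_nonneg (p.1 : ℝ)
    have h4 := abs_nonneg (p.2 : ℝ)
    have h5 : |N * β - b| * |(p.2 : ℝ)| ≤ 1 * |(p.2 : ℝ)| := mul_le_mul_of_nonneg_right h2 h4
    linarith
  refine ⟨ε * (n + 1), b, ?_, ?_, ?_, ?_⟩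
  · rcases hε with h | h
    · rw [h, one_mul, abs_of_nonneg (by positivity)]
    · rw [h, neg_one_mul, abs_neg, abs_of_nonneg (by positivity)]
  · rw [abs_le]
    constructor
    · rw [hb, Int.le_floor]
      push_cast
      nlinarith
    · have : (b : ℝ) ≤ ((n + 1 : ℤ) : ℝ) := by push_cast; nlinarith
      exact_mod_cast this
  · intro p hp hmem
    unfold HP at hmem
    simp only [Set.mem_ofPred_eq] at hmem
    have h1 := abs_le.1 (hcmp p hp)
    have h2 := hw p hp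
    have h3 : (((ε * (n + 1) : ℤ) : ℝ) * p.1 + b * p.2) < k := by exact_mod_cast hmem
    have h4 : N * γ ≤ N * (α * p.1 + β * p.2) := mul_le_mul_of_nonneg_left h2 hN0.le
    linarith [h1.2]
  · intro p hp hnear
    refine ⟨(p.1 - ε * (2 * s + 3), p.2), ?_, ?_⟩
    · unfold HP
      simp only [Set.mem_ofPred_eq]
      have h1 := abs_le.1 (hcmp p hp)
      have h4 : N * (α * p.1 + β * p.2) ≤ N * (γ + 2 * s) :=
        mul_le_mul_of_nonneg_left hnear hN0.le
      have hεε : (ε : ℝ) * ε = 1 := by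
        rcases hε with h | h <;> rw [h] <;> norm_num
      have h5 : (((ε * (n + 1) : ℤ) : ℝ) * (p.1 - ε * (2 * s + 3)) + b * p.2) < k := by
        have e : (((ε * (n + 1) : ℤ) : ℝ) * (p.1 - ε * (2 * s + 3)) + b * p.2) =
            (((ε * (n + 1) : ℤ) : ℝ) * p.1 + b * p.2) - (ε * ε) * (N * (2 * s + 3)) := by
          push_cast; ring
        rw [e, hεε]
        nlinarith [h1.1]
      exact_mod_cast h5
    · simp only [sub_sub_cancel, sub_self, abs_zero, add_zero]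
      rcases hε with h | h
      · rw [h, one_mul, abs_of_nonneg (by positivity)]; push_cast; exact le_refl _
      · rw [h, neg_one_mul, abs_neg, abs_of_nonneg (by positivity)]; push_cast; exact le_refl _

end Pool.Agent.U372.HP
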