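import Pool.Agent.U372.HP.Geo

/-!
# Half-planes and discs: approximation by finitely many sets of lattice points, continued
-/

set_option autoImplicit false

namespace Pool.Agent.U372.HP

open scoped Classical
open Pool.Agent.W840.CT Pool.Agent.U126.NC

theorem hp_core' {n : ℕ} (α β γ : ℝ) (hβ : |β| = 1) (hα : |α| ≤ 1) (s : ℕ) (P : Set (ℤ × ℤ))
    (hP : ∀ p ∈ P, |(p.1 : ℝ)| + |(p.2 : ℝ)| ≤ n)
    (hw : ∀ p ∈ P, γ ≤ α * p.1 + β * p.2) :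
    ∃ a b : ℤ, |a| ≤ n + 1 ∧ |b| ≤ n + 1 ∧
      (∀ p ∈ P, p ∉ HP a b (⌊((n : ℝ) + 1) * γ⌋ - (n + 1))) ∧
      ∀ p ∈ P, α * p.1 + β * p.2 ≤ γ + 2 * s →
        ∃ u ∈ HP a b (⌊((n : ℝ) + 1) * γ⌋ - (n + 1)),
          |p.1 - u.1| + |p.2 - u.2| ≤ ((2 * s + 3 : ℕ) : ℤ) := by
  obtain ⟨a, b, h1, h2, h3, h4⟩ := hp_core (n := n) β α γ hβ hα s {p | (p.2, p.1) ∈ P}
    (fun p hp => by have := hP _ hp; simp only at this; rw [add_comm]; exact this)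
    (fun p hp => by have := hw _ hp; simp only at this; rw [add_comm]; exact this)
  refine ⟨b, a, h2, h1, ?_, ?_⟩
  · intro p hp hm
    refine h3 (p.2, p.1) hp ?_
    unfold HP at hm ⊢
    simp only [Set.mem_ofPred_eq] at hm ⊢
    rw [add_comm]
    exact hm
  · intro p hp hn
    obtain ⟨u, hu, hd⟩ := h4 (p.2, p.1) hp (by simp only; rw [add_comm]; exact hn)
    refine ⟨(u.2, u.1), ?_, ?_⟩
    · unfold HP at hu ⊢
      simp only [Set.mem_ofPred_eq] at hu ⊢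
      rw [add_comm]
      exact hu
    · simp only at hd ⊢
      rw [add_comm]
      exact hd

/-- **half-planes** -/
theorem hp_gen {n : ℕ} (P : Set (ℤ × ℤ)) (hP : ∀ p ∈ P, |(p.1 : ℝ)| + |(p.2 : ℝ)| ≤ n)
    (h0 : (0, 0) ∈ P) (a b c : ℝ) (hab : a ≠ 0 ∨ b ≠ 0) (s : ℕ)
    (hw : ∀ p ∈ P, c ≤ a * p.1 + b * p.2)
    (hex : ∃ p ∈ P, a * p.1 + b * p.2 ≤ c + s * Real.sqrt (a ^ 2 + b ^ 2)) :
    ∃ a' b' k : ℤ, |a'| ≤ n + 1 ∧ |b'| ≤ n + 1 ∧ -(((n : ℤ) + 1) * (n + 2 * s + 2)) ≤ k ∧ k ≤ 0 ∧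
      (∀ p ∈ P, p ∉ HP a' b' k) ∧
      ∀ p ∈ P, a * p.1 + b * p.2 ≤ c + s * Real.sqrt (a ^ 2 + b ^ 2) →
        ∃ u ∈ HP a' b' k, |p.1 - u.1| + |p.2 - u.2| ≤ ((2 * s + 3 : ℕ) : ℤ) := by
  set m : ℝ := max |a| |b| with hm
  have hm0 : 0 < m := by
    rcases hab with h | h
    · exact lt_of_lt_of_le (abs_pos.2 h) (le_max_left _ _)
    · exact lt_of_lt_of_le (abs_pos.2 h) (le_max_right _ _)
  have ha : |a| ≤ m := le_max_left _ _
  have hb : |b| ≤ m := le_max_right _ _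
  have hsq : Real.sqrt (a ^ 2 + b ^ 2) ≤ 2 * m := by
    rw [Real.sqrt_le_left (by positivity)]
    have h1 : a ^ 2 ≤ m ^ 2 := by rw [← sq_abs a]; exact pow_le_pow_left₀ (abs_nonneg _) ha 2
    have h2 : b ^ 2 ≤ m ^ 2 := by rw [← sq_abs b]; exact pow_le_pow_left₀ (abs_nonneg _) hb 2
    nlinarith [sq_nonneg m]
  set γ : ℝ := c / m with hγ
  have hcγ : c = m * γ := by rw [hγ]; field_simp
  have hw' : ∀ p ∈ P, γ ≤ a / m * p.1 + b / m * p.2 := by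
    intro p hp
    have h := hw p hp
    have e : a / m * p.1 + b / m * p.2 = (a * p.1 + b * p.2) / m := by ring
    rw [e, hγ]
    exact div_le_div_of_nonneg_right h hm0.le
  have hn' : ∀ p : ℤ × ℤ, a * p.1 + b * p.2 ≤ c + s * Real.sqrt (a ^ 2 + b ^ 2) →
      a / m * p.1 + b / m * p.2 ≤ γ + 2 * s := by
    intro p hp
    have e : a / m * p.1 + b / m * p.2 = (a * p.1 + b * p.2) / m := by ring
    rw [e, div_le_iff₀ hm0, hcγ] at *
    have h2 : (s : ℝ) * Real.sqrt (a ^ 2 + b ^ 2) ≤ s * (2 * m) :=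
      mul_le_mul_of_nonneg_left hsq (Nat.cast_nonneg _)
    linarith
  have hcore : ∃ a' b' : ℤ, |a'| ≤ n + 1 ∧ |b'| ≤ n + 1 ∧
      (∀ p ∈ P, p ∉ HP a' b' (⌊((n : ℝ) + 1) * γ⌋ - (n + 1))) ∧
      ∀ p ∈ P, a / m * p.1 + b / m * p.2 ≤ γ + 2 * s →
        ∃ u ∈ HP a' b' (⌊((n : ℝ) + 1) * γ⌋ - (n + 1)),
          |p.1 - u.1| + |p.2 - u.2| ≤ ((2 * s + 3 : ℕ) : ℤ) := by
    rcases le_total |b| |a| with h | h
    · have e : m = |a| := max_eq_left h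
      refine hp_core (a / m) (b / m) γ ?_ ?_ s P hP hw'
      · rw [abs_div, abs_of_pos hm0, ← e, div_self hm0.ne']
      · rw [abs_div, abs_of_pos hm0]
        exact div_le_one_of_le₀ hb hm0.le
    · have e : m = |b| := max_eq_right h
      refine hp_core' (a / m) (b / m) γ ?_ ?_ s P hP hw'
      · rw [abs_div, abs_of_pos hm0, ← e, div_self hm0.ne']
      · rw [abs_div, abs_of_pos hm0]
        exact div_le_one_of_le₀ ha hm0.le
  obtain ⟨a', b', h1, h2, h3, h4⟩ := hcore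
  refine ⟨a', b', ⌊((n : ℝ) + 1) * γ⌋ - (n + 1), h1, h2, ?_, ?_, h3, fun p hp hn => h4 p hp (hn' p hn)⟩
  · obtain ⟨p, hp, hpn⟩ := hex
    have h5 := hn' p hpn
    have h6 := hP p hp
    have h7 : |a / m * p.1| ≤ |(p.1 : ℝ)| := by
      rw [abs_mul, abs_div, abs_of_pos hm0]
      have : |a| / m ≤ 1 := div_le_one_of_le₀ ha hm0.le
      nlinarith [abs_nonneg (p.1 : ℝ)]
    have h8 : |b / m * p.2| ≤ |(p.2 : ℝ)| := by
      rw [abs_mul, abs_div, abs_of_pos hm0]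
      have : |b| / m ≤ 1 := div_le_one_of_le₀ hb hm0.le
      nlinarith [abs_nonneg (p.2 : ℝ)]
    have h9 := (abs_le.1 h7).1
    have h10 := (abs_le.1 h8).1
    have h11 : -((n : ℝ) + 2 * s) ≤ γ := by linarith
    have h12 : -(((n : ℝ) + 1) * (n + 2 * s)) ≤ ((n : ℝ) + 1) * γ := by
      have : (0 : ℝ) ≤ (n : ℝ) + 1 := by positivity
      nlinarith
    have h13 : -(((n : ℤ) + 1) * (n + 2 * s)) ≤ ⌊((n : ℝ) + 1) * γ⌋ := by
      rw [Int.le_floor]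
      push_cast
      exact h12
    have e : -(((n : ℤ) + 1) * (n + 2 * s + 2)) =
      -(((n : ℤ) + 1) * (n + 2 * s)) - (n + 1) - (n + 1) := by ring
    rw [e]
    have : (0 : ℤ) ≤ n := Int.natCast_nonneg _
    linarith
  · have h5 := hw' (0, 0) h0
    simp only [Int.cast_zero, mul_zero, add_zero] at h5
    have h6 : ((n : ℝ) + 1) * γ ≤ 0 := mul_nonpos_of_nonneg_of_nonpos (by positivity) h5
    have h7 : ⌊((n : ℝ) + 1) * γ⌋ ≤ 0 := by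
      have := Int.floor_le_floor h6
      rw [Int.floor_zero] at this
      exact this
    have : (0 : ℤ) ≤ n := Int.natCast_nonneg _
    linarith

/-! ### steps towards and away from the centre -/

theorem step_in {d : ℤ × ℤ} (hd : (1 : ℝ) ≤ Real.sqrt ((d.1 : ℝ) ^ 2 + (d.2 : ℝ) ^ 2)) :
    ∃ e : ℤ × ℤ, |d.1 - e.1| + |d.2 - e.2| = 1 ∧
      Real.sqrt ((e.1 : ℝ) ^ 2 + (e.2 : ℝ) ^ 2) ≤
        Real.sqrt ((d.1 : ℝ) ^ 2 + (d.2 : ℝ) ^ 2) - 1 / 5 := by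
  obtain ⟨x, y⟩ := d
  simp only at hd ⊢
  set D := Real.sqrt ((x : ℝ) ^ 2 + (y : ℝ) ^ 2) with hD
  have hD2 : D ^ 2 = (x : ℝ) ^ 2 + (y : ℝ) ^ 2 := Real.sq_sqrt (by positivity)
  have key : ∀ t : ℝ, 0 ≤ t → D ^ 2 ≤ 2 * t ^ 2 → D ^ 2 - 2 * t + 1 ≤ (D - 1 / 5) ^ 2 := by
    intro t ht h
    have h1 : 7 / 10 * D ≤ t := by
      by_contra hc
      push Not at hc
      nlinarith
    nlinarith
  rcases le_total |(y : ℝ)| |(x : ℝ)| with h | h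
  · have hk := key |(x : ℝ)| (abs_nonneg _) (by
      rw [hD2, sq_abs]
      have : (y : ℝ) ^ 2 ≤ (x : ℝ) ^ 2 := sq_le_sq.2 h
      linarith)
    rcases le_or_gt 0 x with hx | hx
    · refine ⟨(x - 1, y), by simp, ?_⟩
      rw [Real.sqrt_le_left (by linarith)]
      have hx' : |(x : ℝ)| = x := abs_of_nonneg (by exact_mod_cast hx)
      rw [hx'] at hk
      push_cast
      nlinarith
    · refine ⟨(x + 1, y), by simp, ?_⟩
      rw [Real.sqrt_le_left (by linarith)]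
      have hx' : |(x : ℝ)| = -x := abs_of_neg (by exact_mod_cast hx)
      rw [hx'] at hk
      push_cast
      nlinarith
  · have hk := key |(y : ℝ)| (abs_nonneg _) (by
      rw [hD2, sq_abs]
      have : (x : ℝ) ^ 2 ≤ (y : ℝ) ^ 2 := sq_le_sq.2 h
      linarith)
    rcases le_or_gt 0 y with hx | hx
    · refine ⟨(x, y - 1), by simp, ?_⟩
      rw [Real.sqrt_le_left (by linarith)]
      have hx' : |(y : ℝ)| = y := abs_of_nonneg (by exact_mod_cast hx)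
      rw [hx'] at hk
      push_cast
      nlinarith
    · refine ⟨(x, y + 1), by simp, ?_⟩
      rw [Real.sqrt_le_left (by linarith)]
      have hx' : |(y : ℝ)| = -y := abs_of_neg (by exact_mod_cast hx)
      rw [hx'] at hk
      push_cast
      nlinarith

theorem step_out (d : ℤ × ℤ) :
    ∃ e : ℤ × ℤ, |d.1 - e.1| + |d.2 - e.2| = 1 ∧
      Real.sqrt ((d.1 : ℝ) ^ 2 + (d.2 : ℝ) ^ 2) + 1 / 5 ≤
        Real.sqrt ((e.1 : ℝ) ^ 2 + (e.2 : ℝ) ^ 2) := by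
  obtain ⟨x, y⟩ := d
  simp only
  set D := Real.sqrt ((x : ℝ) ^ 2 + (y : ℝ) ^ 2) with hD
  have hD0 : 0 ≤ D := Real.sqrt_nonneg _
  have hD2 : D ^ 2 = (x : ℝ) ^ 2 + (y : ℝ) ^ 2 := Real.sq_sqrt (by positivity)
  have key : ∀ t : ℝ, 0 ≤ t → D ^ 2 ≤ 2 * t ^ 2 → (D + 1 / 5) ^ 2 ≤ D ^ 2 + 2 * t + 1 := by
    intro t ht h
    have h1 : 7 / 10 * D ≤ t := by
      by_contra hc
      push Not at hc
      nlinarith
    nlinarith
  rcases le_total |(y : ℝ)| |(x : ℝ)| with h | h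
  · have hk := key |(x : ℝ)| (abs_nonneg _) (by
      rw [hD2, sq_abs]
      have : (y : ℝ) ^ 2 ≤ (x : ℝ) ^ 2 := sq_le_sq.2 h
      linarith)
    rcases le_or_gt 0 x with hx | hx
    · refine ⟨(x + 1, y), by simp, ?_⟩
      refine Real.le_sqrt_of_sq_le ?_
      have hx' : |(x : ℝ)| = x := abs_of_nonneg (by exact_mod_cast hx)
      rw [hx'] at hk
      push_cast
      nlinarith
    · refine ⟨(x - 1, y), by simp, ?_⟩
      refine Real.le_sqrt_of_sq_le ?_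
      have hx' : |(x : ℝ)| = -x := abs_of_neg (by exact_mod_cast hx)
      rw [hx'] at hk
      push_cast
      nlinarith
  · have hk := key |(y : ℝ)| (abs_nonneg _) (by
      rw [hD2, sq_abs]
      have : (x : ℝ) ^ 2 ≤ (y : ℝ) ^ 2 := sq_le_sq.2 h
      linarith)
    rcases le_or_gt 0 y with hx | hx
    · refine ⟨(x, y + 1), by simp, ?_⟩
      refine Real.le_sqrt_of_sq_le ?_
      have hx' : |(y : ℝ)| = y := abs_of_nonneg (by exact_mod_cast hx)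
      rw [hx'] at hk
      push_cast
      nlinarith
    · refine ⟨(x, y - 1), by simp, ?_⟩
      refine Real.le_sqrt_of_sq_le ?_
      have hx' : |(y : ℝ)| = -y := abs_of_neg (by exact_mod_cast hx)
      rw [hx'] at hk
      push_cast
      nlinarith

theorem walk_in (R : ℤ) (hR : 1 ≤ R) (t : ℕ) : ∀ d : ℤ × ℤ,
    Real.sqrt ((d.1 : ℝ) ^ 2 + (d.2 : ℝ) ^ 2) ≤ R + t / 5 →
    ∃ u : ℤ × ℤ, u.1 ^ 2 + u.2 ^ 2 ≤ R ^ 2 ∧ |d.1 - u.1| + |d.2 - u.2| ≤ (t : ℤ) := by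
  have hR' : (1 : ℝ) ≤ R := by exact_mod_cast hR
  have hstop : ∀ (t : ℕ) (d : ℤ × ℤ), Real.sqrt ((d.1 : ℝ) ^ 2 + (d.2 : ℝ) ^ 2) ≤ R →
      ∃ u : ℤ × ℤ, u.1 ^ 2 + u.2 ^ 2 ≤ R ^ 2 ∧ |d.1 - u.1| + |d.2 - u.2| ≤ (t : ℤ) := by
    intro t d h
    rw [Real.sqrt_le_left (by linarith)] at h
    refine ⟨d, by exact_mod_cast h, by simp⟩
  induction t with
  | zero =>
    intro d h
    exact hstop 0 d (by simpa using h)
  | succ t ih =>
    intro d h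
    rcases le_or_gt (Real.sqrt ((d.1 : ℝ) ^ 2 + (d.2 : ℝ) ^ 2)) R with h1 | h1
    · exact hstop _ d h1
    · obtain ⟨e, he1, he2⟩ := step_in (d := d) (by linarith)
      obtain ⟨u, hu1, hu2⟩ := ih e (by push_cast at h; linarith)
      refine ⟨u, hu1, ?_⟩
      have h3 := abs_add_le (d.1 - e.1) (e.1 - u.1)
      have h4 := abs_add_le (d.2 - e.2) (e.2 - u.2)
      rw [sub_add_sub_cancel] at h3 h4
      push_cast
      linarith

theorem walk_out (R : ℤ) (hR : 0 ≤ R) (t : ℕ) : ∀ d : ℤ × ℤ,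
    (R : ℝ) - t / 5 ≤ Real.sqrt ((d.1 : ℝ) ^ 2 + (d.2 : ℝ) ^ 2) →
    ∃ u : ℤ × ℤ, R ^ 2 ≤ u.1 ^ 2 + u.2 ^ 2 ∧ |d.1 - u.1| + |d.2 - u.2| ≤ (t : ℤ) := by
  have hR' : (0 : ℝ) ≤ R := by exact_mod_cast hR
  have hstop : ∀ (t : ℕ) (d : ℤ × ℤ), (R : ℝ) ≤ Real.sqrt ((d.1 : ℝ) ^ 2 + (d.2 : ℝ) ^ 2) →
      ∃ u : ℤ × ℤ, R ^ 2 ≤ u.1 ^ 2 + u.2 ^ 2 ∧ |d.1 - u.1| + |d.2 - u.2| ≤ (t : ℤ) := by
    intro t d h
    have h' := pow_le_pow_left₀ hR' h 2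
    rw [Real.sq_sqrt (by positivity)] at h'
    refine ⟨d, by exact_mod_cast h', by simp⟩
  induction t with
  | zero =>
    intro d h
    exact hstop 0 d (by simpa using h)
  | succ t ih =>
    intro d h
    rcases le_or_gt (R : ℝ) (Real.sqrt ((d.1 : ℝ) ^ 2 + (d.2 : ℝ) ^ 2)) with h1 | h1
    · exact hstop _ d h1
    · obtain ⟨e, he1, he2⟩ := step_out d
      obtain ⟨u, hu1, hu2⟩ := ih e (by push_cast at h; linarith)
      refine ⟨u, hu1, ?_⟩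
      have h3 := abs_add_le (d.1 - e.1) (e.1 - u.1)
      have h4 := abs_add_le (d.2 - e.2) (e.2 - u.2)
      rw [sub_add_sub_cancel] at h3 h4
      push_cast
      linarith

end Pool.Agent.U372.HP
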